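import Mathlib

set_option autoImplicit false

namespace Pool.Agent.H393Z.Mis

/-- A short impartial game, given by the finite family of its options. -/
inductive Game : Type
  | mk : (n : ℕ) → (Fin n → Game) → Game

namespace Game

/-- `IsOption H G` says that `H` is an option of `G`. -/
def IsOption (H : Game) : Game → Prop
  | mk _ f => ∃ i, f i = H

/-- The empty game, with no option. -/
def zero : Game := mk 0 Fin.elim0

/-- Inner recursion of the sum: `F i` adds the `i`-th option of the left summand. -/
def addAux (n : ℕ) (F : Fin n → Game → Game) : Game → Game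
  | mk m g => mk (n + m) (Fin.addCases (fun i => F i (mk m g)) (fun j => addAux n F (g j)))

/-- Disjunctive sum: the options of `G + H` are the `G' + H` and the `G + H'`. -/
def add : Game → Game → Game
  | mk n f => addAux n (fun i => add (f i))

theorem add_mk (n m : ℕ) (f : Fin n → Game) (g : Fin m → Game) :
    add (mk n f) (mk m g) =
      mk (n + m) (Fin.addCases (fun i => add (f i) (mk m g)) (fun j => add (mk n f) (g j))) :=
  rfl

/-- Misère outcome `P` (the previous player wins): there is a move, and no option has outcome
`P`. Every other game, the empty game among them, has outcome `N`. -/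
def IsP : Game → Prop
  | mk n f => 0 < n ∧ ∀ i, ¬ IsP (f i)

/-- The multiple `k x`, the sum of `k` copies of `x`. -/
def mul : ℕ → Game → Game
  | 0, _ => zero
  | k + 1, x => add (mul k x) x

end Game

open Game

/-- `A` is closed under sums and under taking options. -/
def Closed (A : Set Game) : Prop :=
  (∀ G ∈ A, ∀ H ∈ A, add G H ∈ A) ∧ ∀ G ∈ A, ∀ H, IsOption H G → H ∈ A

/-- `H` and `K` have the same class in the misère quotient of `A`. -/
def Equiv (A : Set Game) (H K : Game) : Prop :=
  ∀ X ∈ A, (IsP (add H X) ↔ IsP (add K X))

/-- The class of `x` in the misère quotient of `A` has period `p`: `p` is the least integer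
`p ≥ 1` such that `(m + p) x` and `m x` have the same class for some `m ≥ 1`. -/
def HasPeriod (A : Set Game) (x : Game) (p : ℕ) : Prop :=
  IsLeast {p' : ℕ | 1 ≤ p' ∧ ∃ m : ℕ, 1 ≤ m ∧ Equiv A (mul (m + p') x) (mul m x)} p

end Pool.Agent.H393Z.Mis
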