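import Pool.Agent.H393Z.Mis.Mv

set_option autoImplicit false
set_option linter.unusedSimpArgs false
set_option linter.unusedVariables false
set_option linter.unusedTactic false
set_option linter.unreachableTactic false

namespace Pool.Agent.H393Z.Mis

open Gen

section
variable {p φ na nb nd ne nW nB ns nq nz nx nc sc : ℕ}

theorem G0 (h0 : 1 ≤ nb + nd + ne) (h1 : (na + nx) % 2 = 0) (h2 : (nb + nc) % 2 = 0)
    (h3 : (nd + nB + nc) % 2 = 0) (h4 : (ne + ns + nq + nz) % 2 = 0) :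
    G p φ na nb nd ne nW nB ns nq nz nx nc sc := Or.inl ⟨h0, h1, h2, h3, h4⟩

theorem G1 (h0 : nb + nd + ne = 0)
    (h : nW + nB + ns + nq + nz + nc = 0 ∧ (na + nx) % 2 = 1 ∧ φ ≠ 0) :
    G p φ na nb nd ne nW nB ns nq nz nx nc sc := Or.inr ⟨h0, Or.inl h⟩

theorem G2 (h0 : nb + nd + ne = 0)
    (h : nW = 1 ∧ nB + ns + nq + nz + nc = 0 ∧ (na + nx) % 2 = 0 ∧ φ = 0) :
    G p φ na nb nd ne nW nB ns nq nz nx nc sc := Or.inr ⟨h0, Or.inr (Or.inl h)⟩

theorem G3 (h0 : nb + nd + ne = 0)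
    (h : ns = 1 ∧ nW + nB + nq + nz + nc = 0 ∧ (na + nx) % 2 = 1 ∧ nx = 0) :
    G p φ na nb nd ne nW nB ns nq nz nx nc sc := Or.inr ⟨h0, Or.inr (Or.inr (Or.inl h))⟩

theorem G4 (h0 : nb + nd + ne = 0)
    (h : nq = 1 ∧ nW + nB + ns + nz + nc = 0 ∧
    (((na + nx) % 2 = 0 ∧ (nx < 2 ∨ 2 < φ)) ∨ ((na + nx) % 2 = 1 ∧ 2 ≤ nx ∧ φ = 1))) :
    G p φ na nb nd ne nW nB ns nq nz nx nc sc :=
  Or.inr ⟨h0, Or.inr (Or.inr (Or.inr (Or.inl h)))⟩

theorem G5 (h0 : nb + nd + ne = 0)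
    (h : nc = 1 ∧ nW + nB + ns + nq + nz = 0 ∧
    (((na + nx) % 2 = 0 ∧ (nx < 2 ∨ sc + 3 < φ)) ∨
      ((na + nx) % 2 = 1 ∧ 2 ≤ nx ∧ 1 ≤ φ ∧ φ ≤ sc + 2))) :
    G p φ na nb nd ne nW nB ns nq nz nx nc sc :=
  Or.inr ⟨h0, Or.inr (Or.inr (Or.inr (Or.inr (Or.inl h))))⟩

theorem G6 (h0 : nb + nd + ne = 0)
    (h : nz = 1 ∧ nW + nB + ns + nq + nc = 0 ∧
    (((na + nx) % 2 = 0 ∧ φ + 1 = p) ∨ ((na + nx) % 2 = 1 ∧ φ = 1))) :
    G p φ na nb nd ne nW nB ns nq nz nx nc sc :=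
  Or.inr ⟨h0, Or.inr (Or.inr (Or.inr (Or.inr (Or.inr (Or.inl h)))))⟩

theorem G7 (h0 : nb + nd + ne = 0)
    (h : nW + ns + nq + nc = 0 ∧ nB % 2 = 1 ∧ (nz = 0 ∨ nz % 2 = 1) ∧ (na + nx) % 2 = 0 ∧
      φ = 0) :
    G p φ na nb nd ne nW nB ns nq nz nx nc sc :=
  Or.inr ⟨h0, Or.inr (Or.inr (Or.inr (Or.inr (Or.inr (Or.inr (Or.inl h))))))⟩

theorem G8 (h0 : nb + nd + ne = 0)
    (h : (na + nx) % 2 = 0 ∧ nc % 2 = 0 ∧ nB % 2 = 0 ∧ (ns + nq + nz) % 2 = 0 ∧
    2 ≤ nW + nB + ns + nq + nz + nc ∧ (φ ≠ 0 ∨ 1 ≤ nW + ns + nc ∨ 2 ≤ nq)) :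
    G p φ na nb nd ne nW nB ns nq nz nx nc sc :=
  Or.inr ⟨h0, Or.inr (Or.inr (Or.inr (Or.inr (Or.inr (Or.inr (Or.inr h))))))⟩

end

theorem ph_prev (k l : ℕ) (hl : 1 ≤ l) :
    (ph k l = ph k (l - 1) + 1) ∨ (ph k l = 0 ∧ ph k (l - 1) = 2 * k + 3) := by
  have := ph_step k (l - 1)
  rwa [Nat.sub_add_cancel hl] at this

/-- Protected positions. -/
theorem s2_prot (k : ℕ) (P : Multiset Gen) (h0 : 1 ≤ cnt 1 P + cnt 2 P + cnt 3 P)
    (hN : nimv P ≠ 0) : Win k P := by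
  have hdef : nimv P = (cnt 0 P + cnt 9 P) % 2 + 2 * ((cnt 1 P + cnt 10 P) % 2) +
    4 * ((cnt 2 P + cnt 5 P + cnt 10 P) % 2) +
    8 * ((cnt 3 P + cnt 6 P + cnt 7 P + cnt 8 P) % 2) := rfl
  by_cases b3 : (cnt 3 P + cnt 6 P + cnt 7 P + cnt 8 P) % 2 = 1
  · by_cases he : 1 ≤ cnt 3 P
    · exact im_e he (by omega)
    by_cases hs : 1 ≤ cnt 6 P
    · by_cases h9 : nimv P = 9
      · exact mv_s_0 hs (G0 (by omega) (by omega) (by omega) (by omega) (by omega))
      · exact im_s hs (by omega)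
    by_cases hq : 1 ≤ cnt 7 P
    · by_cases h8 : nimv P = 8
      · exact mv_q_0 hq (G0 (by omega) (by omega) (by omega) (by omega) (by omega))
      by_cases h9 : nimv P = 9
      · exact mv_q_1 hq (G0 (by omega) (by omega) (by omega) (by omega) (by omega))
      · exact im_q hq (by omega)
    have hz : 1 ≤ cnt 8 P := by omega
    by_cases h8 : nimv P = 8
    · exact mv_z_0 hz (G0 (by omega) (by omega) (by omega) (by omega) (by omega))
    by_cases h9 : nimv P = 9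
    · exact mv_z_1 hz (G0 (by omega) (by omega) (by omega) (by omega) (by omega))
    by_cases h12 : nimv P = 12
    · exact mv_z_2 hz (G0 (by omega) (by omega) (by omega) (by omega) (by omega))
    · exact im_z hz (by omega)
  by_cases b2 : (cnt 2 P + cnt 5 P + cnt 10 P) % 2 = 1
  · by_cases hd : 1 ≤ cnt 2 P
    · exact im_d hd (by omega)
    by_cases hB : 1 ≤ cnt 5 P
    · by_cases h4 : nimv P = 4
      · exact mv_B_0 hB (G0 (by omega) (by omega) (by omega) (by omega) (by omega))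
      by_cases h5 : nimv P = 5
      · exact mv_B_1 hB (G0 (by omega) (by omega) (by omega) (by omega) (by omega))
      · exact im_B hB (by omega)
    have hc : 1 ≤ cnt 10 P := by omega
    by_cases h6 : nimv P = 6
    · exact mv_c_0 hc (fun _ => G0 (by omega) (by omega) (by omega) (by omega) (by omega))
    by_cases h7 : nimv P = 7
    · exact mv_c_1 hc (fun _ => G0 (by omega) (by omega) (by omega) (by omega) (by omega))
    · exact im_c hc (by omega)
  by_cases b1 : (cnt 1 P + cnt 10 P) % 2 = 1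
  · by_cases hc : 1 ≤ cnt 10 P
    · exact im_c hc (by omega)
    have hb : 1 ≤ cnt 1 P := by omega
    by_cases h2 : 2 ≤ cnt 1 P + cnt 2 P + cnt 3 P
    · by_cases h2' : nimv P = 2
      · exact mv_b_0 hb (G0 (by omega) (by omega) (by omega) (by omega) (by omega))
      · exact mv_b_1 hb (G0 (by omega) (by omega) (by omega) (by omega) (by omega))
    by_cases hW : 1 ≤ cnt 4 P
    · exact im_W hW hN
    by_cases hB : 1 ≤ cnt 5 P
    · exact im_B hB (by omega)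
    by_cases hs : 1 ≤ cnt 6 P
    · exact im_s hs (by omega)
    by_cases hq : 1 ≤ cnt 7 P
    · exact im_q hq (by omega)
    by_cases hz : 1 ≤ cnt 8 P
    · exact im_z hz (by omega)
    by_cases hx : 1 ≤ cnt 9 P
    · exact im_x hx (by omega)
    have f1 := ph_facts k (cnt 9 P)
    by_cases h2' : nimv P = 2
    · exact mv_b_1 hb (G1 (by omega) (by omega))
    · exact mv_b_0 hb (G1 (by omega) (by omega))
  by_cases ha : 1 ≤ cnt 0 P
  · exact mv_a_0 ha (G0 (by omega) (by omega) (by omega) (by omega) (by omega))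
  · exact mv_x_0 (by omega) (G0 (by omega) (by omega) (by omega) (by omega) (by omega))

theorem s2_unprot (k : ℕ) (P : Multiset Gen) (h0 : cnt 1 P + cnt 2 P + cnt 3 P = 0)
    (hn : ¬ cand k P) (hP : 1 ≤ cnt 0 P + cnt 4 P + cnt 5 P + cnt 6 P + cnt 7 P + cnt 8 P +
      cnt 9 P + cnt 10 P) : Win k P := by
  have hb : cnt 1 P = 0 := by omega
  have hd : cnt 2 P = 0 := by omega
  have he : cnt 3 P = 0 := by omega
  have hdef : nimv P = (cnt 0 P + cnt 9 P) % 2 + 2 * (cnt 10 P % 2) +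
    4 * ((cnt 5 P + cnt 10 P) % 2) + 8 * ((cnt 6 P + cnt 7 P + cnt 8 P) % 2) := by
    unfold nimv
    rw [hb, hd, he]
    simp only [zero_add]
  have f1 := ph_facts k (cnt 9 P)
  have f0 := sc_zero P
  by_cases hW : 1 ≤ cnt 4 P
  · by_cases hN : nimv P = 0
    swap
    · exact im_W hW hN
    have n2 : ¬ _ := fun h => hn (G2 h0 h)
    have n8 : ¬ _ := fun h => hn (G8 h0 h)
    exact mv_W_0 hW (G1 (by omega) (by omega))
  by_cases hc : 1 ≤ cnt 10 P
  · by_cases hN : nimv P ≠ 6 ∧ nimv P ≠ 7 ∧ nimv P ≠ 0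
    · exact im_c hc hN
    by_cases hN0 : nimv P = 0
    · exact absurd (G8 h0 (by omega)) hn
    by_cases hB : 1 ≤ cnt 5 P
    · exact im_B hB (by omega)
    by_cases hs : 1 ≤ cnt 6 P
    · exact im_s hs (by omega)
    by_cases hq : 1 ≤ cnt 7 P
    · exact im_q hq (by omega)
    by_cases hz : 1 ≤ cnt 8 P
    · exact im_z hz (by omega)
    by_cases hc1 : cnt 10 P = 1
    swap
    · by_cases h6 : nimv P = 6
      · exact mv_c_0 hc (fun _ => G8 (by omega) (by omega))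
      · exact mv_c_1 hc (fun _ => G8 (by omega) (by omega))
    by_cases hT : ph k (cnt 9 P) = 0
    · by_cases h6 : nimv P = 6
      · exact mv_c_0 hc (fun _ => G2 (by omega) (by omega))
      · exact mv_c_1 hc (fun _ => G2 (by omega) (by omega))
    have n5 : ¬ _ := fun h => hn (G5 h0 h)
    by_cases hv : (cnt 0 P + cnt 9 P) % 2 = 0 ∧ cnt 11 P + 2 ≤ ph k (cnt 9 P)
    · have hx : 1 ≤ cnt 9 P := by omega
      have f2 := ph_prev k (cnt 9 P) hx
      exact mv_x_0 hx (G5 (by omega) (by omega))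
    by_cases hi : cnt 11 P = 0
    · exact mv_c_2a hc1 hi (G4 (by omega) (by omega))
    · exact mv_c_2b hc1 (by omega) (G5 (by omega) (by omega))
  by_cases hs : 1 ≤ cnt 6 P
  · by_cases hN : nimv P ≠ 9 ∧ nimv P ≠ 0
    · exact im_s hs hN
    by_cases hN0 : nimv P = 0
    · exact absurd (G8 h0 (by omega)) hn
    by_cases hB : 1 ≤ cnt 5 P
    · exact im_B hB (by omega)
    by_cases h3 : 3 ≤ cnt 6 P + cnt 7 P + cnt 8 P
    · exact mv_s_0 hs (G8 (by omega) (by omega))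
    have n3 : ¬ _ := fun h => hn (G3 h0 h)
    exact mv_x_1 (by omega) (G8 (by omega) (by omega))
  by_cases hq : 1 ≤ cnt 7 P
  · by_cases hN : nimv P ≠ 8 ∧ nimv P ≠ 9 ∧ nimv P ≠ 0
    · exact im_q hq hN
    by_cases hN0 : nimv P = 0
    · have n8 : ¬ _ := fun h => hn (G8 h0 h)
      exact mv_q_2 hq (G7 (by omega) (by omega))
    by_cases hB : 1 ≤ cnt 5 P
    · exact im_B hB (by omega)
    by_cases h3 : 3 ≤ cnt 7 P + cnt 8 P
    · by_cases h8 : nimv P = 8
      · exact mv_q_0 hq (G8 (by omega) (by omega))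
      · exact mv_q_1 hq (G8 (by omega) (by omega))
    by_cases hT : ph k (cnt 9 P) = 0
    · by_cases h8 : nimv P = 8
      · exact mv_q_0 hq (G2 (by omega) (by omega))
      · exact mv_q_1 hq (G2 (by omega) (by omega))
    have n4 : ¬ _ := fun h => hn (G4 h0 h)
    by_cases hv : (cnt 0 P + cnt 9 P) % 2 = 0
    · by_cases h1 : ph k (cnt 9 P) = 1
      · exact mv_a_0 (by omega) (G4 (by omega) (by omega))
      · have hx : 1 ≤ cnt 9 P := by omega
        have f2 := ph_prev k (cnt 9 P) hx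
        exact mv_x_0 hx (G4 (by omega) (by omega))
    by_cases hx : 1 ≤ cnt 9 P
    · have f2 := ph_prev k (cnt 9 P) hx
      exact mv_x_1 hx (G8 (by omega) (by omega))
    · exact mv_a_0 (by omega) (G4 (by omega) (by omega))
  by_cases hz : 1 ≤ cnt 8 P
  · by_cases hN : nimv P ≠ 8 ∧ nimv P ≠ 9 ∧ nimv P ≠ 12 ∧ nimv P ≠ 0
    · exact im_z hz hN
    by_cases hN0 : nimv P = 0
    · have n8 : ¬ _ := fun h => hn (G8 h0 h)
      exact mv_z_2 hz (G7 (by omega) (by omega))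
    by_cases h12 : nimv P = 12
    · have n7 : ¬ _ := fun h => hn (G7 h0 h)
      exact mv_z_2 hz (G8 (by omega) (by omega))
    by_cases hB : 1 ≤ cnt 5 P
    · exact im_B hB (by omega)
    by_cases h3 : 3 ≤ cnt 8 P
    · by_cases h8 : nimv P = 8
      · exact mv_z_0 hz (G8 (by omega) (by omega))
      · exact mv_z_1 hz (G8 (by omega) (by omega))
    by_cases hT : ph k (cnt 9 P) = 0
    · by_cases h8 : nimv P = 8
      · exact mv_z_0 hz (G2 (by omega) (by omega))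
      · exact mv_z_1 hz (G2 (by omega) (by omega))
    have n6 : ¬ _ := fun h => hn (G6 h0 h)
    have hc0 : cnt 10 P = 0 := by omega
    have hi := f0 hc0
    by_cases hx : 1 ≤ cnt 9 P
    · by_cases hv : (cnt 0 P + cnt 9 P) % 2 = 0
      · exact mv_z_4 hz (G5 (by omega) (by omega))
      · have f2 := ph_prev k (cnt 9 P) hx
        exact mv_x_1 hx (G8 (by omega) (by omega))
    · by_cases hv : (cnt 0 P + cnt 9 P) % 2 = 0
      · exact mv_z_3 hz (G3 (by omega) (by omega))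
      · exact mv_z_4 hz (G5 (by omega) (by omega))
  by_cases hB : 1 ≤ cnt 5 P
  · by_cases hN : nimv P ≠ 4 ∧ nimv P ≠ 5 ∧ nimv P ≠ 0 ∧ nimv P ≠ 12
    · exact im_B hB hN
    by_cases hN0 : nimv P = 0
    · have n8 : ¬ _ := fun h => hn (G8 h0 h)
      exact mv_B_0 hB (G7 (by omega) (by omega))
    by_cases hT : ph k (cnt 9 P) = 0
    · have n7 : ¬ _ := fun h => hn (G7 h0 h)
      exact mv_a_0 (by omega) (G7 (by omega) (by omega))
    by_cases h1 : cnt 5 P = 1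
    · by_cases h4 : nimv P = 4
      · exact mv_B_1 hB (G1 (by omega) (by omega))
      · exact mv_B_0 hB (G1 (by omega) (by omega))
    · by_cases h4 : nimv P = 4
      · exact mv_B_0 hB (G8 (by omega) (by omega))
      · exact mv_B_1 hB (G8 (by omega) (by omega))
  have n1 : ¬ _ := fun h => hn (G1 h0 h)
  by_cases hT : ph k (cnt 9 P) = 0
  · have hx : 1 ≤ cnt 9 P := by omega
    have f2 := ph_prev k (cnt 9 P) hx
    by_cases hv : (cnt 0 P + cnt 9 P) % 2 = 0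
    · exact mv_x_0 hx (G1 (by omega) (by omega))
    · exact mv_x_1 hx (G6 (by omega) (by omega))
  by_cases ha : 1 ≤ cnt 0 P
  · exact mv_a_0 ha (G1 (by omega) (by omega))
  · have hx : 1 ≤ cnt 9 P := by omega
    have f2 := ph_prev k (cnt 9 P) hx
    exact mv_x_0 hx (G1 (by omega) (by omega))

theorem s2 (k : ℕ) (P : Multiset Gen) (hP : P ≠ 0) (hn : ¬ cand k P) : Win k P := by
  by_cases h0 : 1 ≤ cnt 1 P + cnt 2 P + cnt 3 P
  · refine s2_prot k P h0 (fun hN => hn ?_)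
    unfold nimv at hN
    exact G0 h0 (by omega) (by omega) (by omega) (by omega)
  · refine s2_unprot k P (by omega) hn ?_
    obtain ⟨g, hg⟩ := Multiset.exists_mem_of_ne_zero hP
    obtain ⟨R, rfl⟩ := Multiset.exists_cons_of_mem hg
    cases g <;>
      simp only [cnt_cons, vec, Nat.reduceEqDiff, ↓reduceIte, add_zero, zero_add] at h0 ⊢ <;> omega

end Pool.Agent.H393Z.Mis
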