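import Pool.Agent.H393Z.Mis.Defs
import Pool.Agent.H393Z.Mis.S2

set_option autoImplicit false
set_option linter.unusedSimpArgs false
set_option linter.unusedVariables false

namespace Pool.Agent.H393Z.Mis

open Gen Game

def Real (k : ℕ) : Game → Multiset Gen → Prop
  | .mk _ f => fun P =>
    (∀ i, ∃ Q, Move k P Q ∧ Real k (f i) Q) ∧ (∀ Q, Move k P Q → ∃ i, Real k (f i) Q)

theorem not_move_zero (k : ℕ) (Q : Multiset Gen) : ¬ Move k 0 Q := by
  rintro ⟨g, o, R, -, h, -⟩
  exact Multiset.zero_ne_cons h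

theorem move_add_left {k : ℕ} {P P' : Multiset Gen} (Q : Multiset Gen) (h : Move k P P') :
    Move k (P + Q) (P' + Q) := by
  obtain ⟨g, o, R, ho, rfl, rfl⟩ := h
  exact ⟨g, o, R + Q, ho, Multiset.cons_add _ _ _, add_assoc _ _ _⟩

theorem move_add_right {k : ℕ} {Q Q' : Multiset Gen} (P : Multiset Gen) (h : Move k Q Q') :
    Move k (P + Q) (P + Q') := by
  rw [add_comm P Q, add_comm P Q']
  exact move_add_left P h

theorem move_add {k : ℕ} {P Q R : Multiset Gen} (h : Move k (P + Q) R) :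
    (∃ P', Move k P P' ∧ R = P' + Q) ∨ (∃ Q', Move k Q Q' ∧ R = P + Q') := by
  obtain ⟨g, o, S, ho, hS, rfl⟩ := h
  have hg : g ∈ P + Q := hS ▸ Multiset.mem_cons_self g S
  rcases Multiset.mem_add.1 hg with hg | hg
  · obtain ⟨P0, rfl⟩ := Multiset.exists_cons_of_mem hg
    rw [Multiset.cons_add, Multiset.cons_inj_right] at hS
    subst hS
    exact Or.inl ⟨o + P0, ⟨g, o, P0, ho, rfl, rfl⟩, (add_assoc _ _ _).symm⟩
  · obtain ⟨Q0, rfl⟩ := Multiset.exists_cons_of_mem hg
    rw [Multiset.add_cons, Multiset.cons_inj_right] at hS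
    subst hS
    exact Or.inr ⟨o + Q0, ⟨g, o, Q0, ho, rfl, rfl⟩, add_left_comm _ _ _⟩

theorem real_zero (k : ℕ) : Real k Game.zero 0 :=
  ⟨fun i => i.elim0, fun Q h => absurd h (not_move_zero k Q)⟩

theorem real_add (k : ℕ) (X : Game) : ∀ (Y : Game) (P Q : Multiset Gen),
    Real k X P → Real k Y Q → Real k (add X Y) (P + Q) := by
  induction X with
  | mk n f ihf =>
    intro Y
    induction Y with
    | mk m g ihg =>
      intro P Q hP hQ
      rw [add_mk]
      refine ⟨fun i => ?_, fun R hR => ?_⟩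
      · refine Fin.addCases (fun i => ?_) (fun j => ?_) i
        · obtain ⟨P', h1, h2⟩ := hP.1 i
          refine ⟨P' + Q, move_add_left Q h1, ?_⟩
          simp only [Fin.addCases_left]
          exact ihf i _ _ _ h2 hQ
        · obtain ⟨Q', h1, h2⟩ := hQ.1 j
          refine ⟨P + Q', move_add_right P h1, ?_⟩
          simp only [Fin.addCases_right]
          exact ihg j _ _ hP h2
      · rcases move_add hR with ⟨P', h1, rfl⟩ | ⟨Q', h1, rfl⟩
        · obtain ⟨i, hi⟩ := hP.2 P' h1
          refine ⟨Fin.castAdd m i, ?_⟩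
          simp only [Fin.addCases_left]
          exact ihf i _ _ _ hi hQ
        · obtain ⟨j, hj⟩ := hQ.2 Q' h1
          refine ⟨Fin.natAdd n j, ?_⟩
          simp only [Fin.addCases_right]
          exact ihg j _ _ hP hj

theorem real_mul {k : ℕ} {X : Game} {P : Multiset Gen} (h : Real k X P) (n : ℕ) :
    Real k (Game.mul n X) (n • P) := by
  induction n with
  | zero =>
    rw [zero_nsmul]
    exact real_zero k
  | succ n ih =>
    rw [succ_nsmul]
    exact real_add k _ _ _ _ ih h

theorem opts_nonempty (k : ℕ) (g : Gen) : ∃ o, o ∈ opts k g := by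
  cases g with
  | d => exact ⟨imm 0, mem_immL.2 ⟨0, by omega, by simp, rfl⟩⟩
  | e => exact ⟨imm 0, mem_immL.2 ⟨0, by omega, by simp, rfl⟩⟩
  | _ => exact ⟨_, List.mem_cons_self⟩

theorem not_cand_zero (k : ℕ) : ¬ cand k 0 := by
  simp [cand, G, U, cnt_zero]

theorem isP_iff (k : ℕ) (X : Game) : ∀ P, Real k X P → (IsP X ↔ cand k P) := by
  induction X with
  | mk n f ih =>
    intro P hP
    constructor
    · rintro ⟨hn, hf⟩
      by_contra hc
      obtain ⟨Q0, hQ0, -⟩ := hP.1 ⟨0, hn⟩
      have hP0 : P ≠ 0 := by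
        rintro rfl
        exact not_move_zero k _ hQ0
      obtain ⟨Q, hQ, hcQ⟩ := s2 k P hP0 hc
      obtain ⟨i, hi⟩ := hP.2 Q hQ
      exact hf i ((ih i Q hi).2 hcQ)
    · intro hc
      refine ⟨?_, fun i hi => ?_⟩
      · have hP0 : P ≠ 0 := by
          rintro rfl
          exact not_cand_zero k hc
        obtain ⟨g, hg⟩ := Multiset.exists_mem_of_ne_zero hP0
        obtain ⟨R, rfl⟩ := Multiset.exists_cons_of_mem hg
        obtain ⟨o, ho⟩ := opts_nonempty k g
        obtain ⟨i, -⟩ := hP.2 (o + R) ⟨g, o, R, ho, rfl, rfl⟩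
        exact i.pos
      · obtain ⟨Q, ⟨g, o, R, ho, rfl, rfl⟩, hQ⟩ := hP.1 i
        exact s1 k g o ho R hc ((ih i _ hQ).1 hi)

def rank (k : ℕ) : Gen → ℕ
  | .a => 0
  | .b => 1
  | .d => 2
  | .e => 3
  | .W => 4
  | .B => 4
  | .s => 5
  | .q => 5
  | .z => 2 * k + 7
  | .x => 2 * k + 8
  | .c i => i + 6

theorem rank_imm (k n : ℕ) (g : Gen) (h : g ∈ imm n) :
    rank k g ≤ 3 ∧ (n < 8 → rank k g ≤ 2) ∧ (n < 4 → rank k g ≤ 1) := by
  simp only [imm, Multiset.mem_add, Multiset.mem_replicate] at h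
  rcases h with ((⟨h, rfl⟩ | ⟨h, rfl⟩) | ⟨h, rfl⟩) | ⟨h, rfl⟩ <;> simp only [rank] <;> omega

theorem rank_prev (k i : ℕ) : rank k (prev i) < i + 6 := by
  cases i <;> simp [prev, rank]

theorem rank_lt (k : ℕ) (g : Gen) (o : Multiset Gen) (ho : o ∈ opts k g) (g' : Gen)
    (h : g' ∈ o) : rank k g' < rank k g := by
  have key : ∀ l : List Gen, (∀ g'' ∈ l, rank k g'' < rank k g) → o = (l : Multiset Gen) →
      rank k g' < rank k g := by
    rintro l hl rfl
    exact hl g' (Multiset.mem_coe.1 h)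
  have himm : ∀ M ex, o ∈ immL M ex →
      rank k g' ≤ 3 ∧ (M ≤ 8 → rank k g' ≤ 2) ∧ (M ≤ 4 → rank k g' ≤ 1) := by
    intro M ex hM
    obtain ⟨n, hn, -, rfl⟩ := mem_immL.1 hM
    have := rank_imm k n g' h
    omega
  cases g with
  | a =>
    simp only [opts, List.mem_cons, List.not_mem_nil, or_false] at ho
    exact key [] (by simp) ho
  | b =>
    simp only [opts, List.mem_cons, List.not_mem_nil, or_false] at ho
    rcases ho with ho | ho
    · exact key [] (by simp) ho
    · exact key [a] (by simp [rank]) ho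
  | d =>
    have := himm _ _ ho
    have e : rank k d = 2 := rfl
    omega
  | e =>
    have := himm _ _ ho
    have e : rank k e = 3 := rfl
    omega
  | W =>
    simp only [opts, List.mem_cons] at ho
    rcases ho with ho | ho
    · exact key [a] (by simp [rank]) ho
    · have := himm _ _ ho
      have e : rank k W = 4 := rfl
      omega
  | B =>
    simp only [opts, List.mem_cons] at ho
    rcases ho with ho | ho | ho
    · exact key [] (by simp) ho
    · exact key [a] (by simp [rank]) ho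
    · have := himm _ _ ho
      have e : rank k B = 4 := rfl
      omega
  | s =>
    simp only [opts, List.mem_cons] at ho
    rcases ho with ho | ho
    · exact key [a, W] (by simp [rank]) ho
    · have := himm _ _ ho
      have e : rank k s = 5 := rfl
      omega
  | q =>
    simp only [opts, List.mem_cons] at ho
    rcases ho with ho | ho | ho | ho
    · exact key [W] (by simp [rank]) ho
    · exact key [a, W] (by simp [rank]) ho
    · exact key [B] (by simp [rank]) ho
    · have := himm _ _ ho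
      have e : rank k q = 5 := rfl
      omega
  | z =>
    simp only [opts, List.mem_cons] at ho
    rcases ho with ho | ho | ho | ho | ho | ho
    · exact key [W] (by simp [rank]) ho
    · exact key [a, W] (by simp [rank]) ho
    · exact key [B] (by simp [rank]) ho
    · exact key [a, s] (by simp [rank]) ho
    · exact key [a, c (2 * k)] (by simp [rank]) ho
    · have := himm _ _ ho
      have e : rank k z = 2 * k + 7 := rfl
      omega
  | x =>
    simp only [opts, List.mem_cons] at ho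
    rcases ho with ho | ho | ho
    · exact key [] (by simp) ho
    · exact key [z] (by simp [rank]) ho
    · have := himm _ _ ho
      have e : rank k x = 2 * k + 8 := rfl
      omega
  | c i =>
    simp only [opts, List.mem_cons] at ho
    have e : rank k (c i) = i + 6 := rfl
    have e' : rank k a = 0 := rfl
    have e'' : rank k W = 4 := rfl
    have hp := rank_prev k i
    rcases ho with ho | ho | ho | ho
    · exact key [W] (by simp only [List.mem_cons, List.not_mem_nil, or_false, forall_eq]; omega) ho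
    · exact key [a, W] (by
        simp only [List.mem_cons, List.not_mem_nil, or_false, forall_eq_or_imp, forall_eq]
        omega) ho
    · exact key [a, prev i] (by
        simp only [List.mem_cons, List.not_mem_nil, or_false, forall_eq_or_imp, forall_eq]
        omega) ho
    · have := himm _ _ ho
      omega

theorem exists_real_of (k : ℕ) (P : Multiset Gen) (h : ∀ g ∈ P, ∃ X, Real k X (g ::ₘ 0)) :
    ∃ X, Real k X P := by
  induction P using Multiset.induction_on with
  | empty => exact ⟨_, real_zero k⟩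
  | cons g R ih =>
    obtain ⟨X, hX⟩ := h g (Multiset.mem_cons_self g R)
    obtain ⟨Y, hY⟩ := ih (fun g' hg' => h g' (Multiset.mem_cons_of_mem hg'))
    refine ⟨add X Y, ?_⟩
    have := real_add k X Y _ _ hX hY
    rwa [Multiset.cons_add, zero_add] at this

theorem exists_real_gen (k : ℕ) (n : ℕ) : ∀ g, rank k g < n → ∃ X, Real k X (g ::ₘ 0) := by
  induction n with
  | zero => intro g h; omega
  | succ n ih =>
    intro g hg
    have h1 : ∀ i : Fin (opts k g).length, ∃ X, Real k X ((opts k g).get i) := fun i =>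
      exists_real_of k _ (fun g' hg' => ih g' (by
        have := rank_lt k g _ (List.get_mem _ i) g' hg'
        omega))
    choose f hf using h1
    refine ⟨.mk _ f, fun i => ⟨_, ⟨g, _, 0, List.get_mem _ i, rfl, (add_zero _).symm⟩, hf i⟩, ?_⟩
    rintro Q ⟨g', o, R, ho, hR, rfl⟩
    have h2 : (g ::ₘ 0 : Multiset Gen) = {g} := rfl
    rw [h2, Multiset.singleton_eq_cons_iff] at hR
    obtain ⟨rfl, rfl⟩ := hR
    obtain ⟨i, rfl⟩ := List.get_of_mem ho
    exact ⟨i, by rw [add_zero]; exact hf i⟩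

theorem exists_real (k : ℕ) (P : Multiset Gen) : ∃ X, Real k X P :=
  exists_real_of k P (fun g _ => exists_real_gen k _ g (Nat.lt_succ_self _))

def univ (k : ℕ) : Set Game := {X | ∃ P, Real k X P}

theorem closed_univ (k : ℕ) : Closed (univ k) := by
  refine ⟨?_, ?_⟩
  · rintro X ⟨P, hP⟩ Y ⟨Q, hQ⟩
    exact ⟨P + Q, real_add k X Y P Q hP hQ⟩
  · rintro ⟨n, f⟩ ⟨P, hP⟩ H ⟨i, rfl⟩
    obtain ⟨Q, -, hQ⟩ := hP.1 i
    exact ⟨Q, hQ⟩

theorem G_shift (p φ na nb nd ne nW nB ns nq nz nx nc sc t : ℕ) (h : 2 ≤ nx) :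
    G p φ na nb nd ne nW nB ns nq nz (nx + 2 * t) nc sc ↔
      G p φ na nb nd ne nW nB ns nq nz nx nc sc := by
  have e1 : (na + (nx + 2 * t)) % 2 = (na + nx) % 2 := by omega
  have e2 : (nx + 2 * t < 2) ↔ nx < 2 := by omega
  have e3 : (2 ≤ nx + 2 * t) ↔ 2 ≤ nx := by omega
  have e4 : (nx + 2 * t = 0) ↔ nx = 0 := by omega
  simp only [G, U, e1, e2, e3, e4]

theorem cnt_nsmul (j n : ℕ) (P : Multiset Gen) : cnt j (n • P) = n * cnt j P := by
  induction n with
  | zero => simp [cnt]
  | succ n ih => rw [succ_nsmul, cnt_add, ih]; ring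

theorem ph_mul (k t u : ℕ) : ph k (t * (2 * k + 4) + 2 + u) = u % (2 * k + 4) := by
  unfold ph
  rw [show t * (2 * k + 4) + 2 + u + (2 * k + 2) = u + (t + 1) * (2 * k + 4) by ring,
    Nat.add_mul_mod_self_right]

theorem all_periods (p : ℕ) (hp : 1 ≤ p) :
    ∃ (A : Set Game) (y : Game), Closed A ∧ y ∈ A ∧ HasPeriod A y p := by
  obtain ⟨p0, rfl⟩ : ∃ p0, p = p0 + 1 := ⟨p - 1, by omega⟩
  obtain ⟨y, hy⟩ := exists_real (2 * p0) (Multiset.replicate 4 x)
  refine ⟨univ (2 * p0), y, closed_univ _, ⟨_, hy⟩, ⟨hp, 1, le_refl _, ?_⟩, ?_⟩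
  · rintro X ⟨R, hR⟩
    rw [isP_iff _ _ _ (real_add _ _ _ _ _ (real_mul hy _) hR),
      isP_iff _ _ _ (real_add _ _ _ _ _ (real_mul hy _) hR)]
    simp only [cand, cnt_add, cnt_nsmul, cnt_replicate, vec, Nat.reduceEqDiff, ↓reduceIte,
      mul_zero, mul_one, zero_add, one_mul]
    have e1 : (1 + (p0 + 1)) * 4 + cnt 9 R = 4 + cnt 9 R + (2 * (2 * p0) + 4) := by ring
    rw [e1, ph_period, show 2 * (2 * p0) + 4 = 2 * (2 * p0 + 2) by ring]
    exact G_shift _ _ _ _ _ _ _ _ _ _ _ _ _ _ _ (by omega)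
  · rintro p' ⟨hp', m, hm, hE⟩
    by_contra hlt
    obtain ⟨X, hX⟩ := exists_real (2 * p0)
      (a ::ₘ Multiset.replicate ((4 * p0 + 3) * (4 * m) + 2) x)
    have h := hE X ⟨_, hX⟩
    rw [isP_iff _ _ _ (real_add _ _ _ _ _ (real_mul hy _) hX),
      isP_iff _ _ _ (real_add _ _ _ _ _ (real_mul hy _) hX)] at h
    simp only [cand, cnt_add, cnt_cons, cnt_nsmul, cnt_replicate, vec, Nat.reduceEqDiff,
      ↓reduceIte, mul_zero, mul_one, zero_add, add_zero, one_mul] at h
    have e1 : (m + p') * 4 + ((4 * p0 + 3) * (4 * m) + 2) =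
      (4 * m) * (2 * (2 * p0) + 4) + 2 + 4 * p' := by ring
    have e2 : m * 4 + ((4 * p0 + 3) * (4 * m) + 2) =
      (4 * m) * (2 * (2 * p0) + 4) + 2 + 0 := by ring
    rw [e1, e2, ph_mul, ph_mul, Nat.zero_mod, Nat.mod_eq_of_lt (by omega)] at h
    have e3 : 4 * m * (2 * (2 * p0) + 4) = 2 * (2 * m * (2 * (2 * p0) + 4)) := by ring
    rw [e3] at h
    have h1 := h.1 (G1 rfl (by omega))
    simp [G, U] at h1

end Pool.Agent.H393Z.Mis
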