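import Pool.Agent.H393Z.Mis.S1

set_option autoImplicit false
set_option linter.unusedSimpArgs false
set_option linter.unusedVariables false
set_option linter.unusedTactic false
set_option linter.unreachableTactic false

namespace Pool.Agent.H393Z.Mis

open Gen

def Move (k : ℕ) (P Q : Multiset Gen) : Prop :=
  ∃ g o R, o ∈ opts k g ∧ P = g ::ₘ R ∧ Q = o + R

def Win (k : ℕ) (P : Multiset Gen) : Prop := ∃ Q, Move k P Q ∧ cand k Q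

theorem nimv_lt (R : Multiset Gen) : nimv R < 16 := by
  unfold nimv
  omega

theorem bits_of (u v w t n : ℕ) (h : n = u % 2 + 2 * (v % 2) + 4 * (w % 2) + 8 * (t % 2)) :
    n % 2 = u % 2 ∧ n / 2 % 2 = v % 2 ∧ n / 4 % 2 = w % 2 ∧ n / 8 % 2 = t % 2 := by
  rcases Nat.mod_two_eq_zero_or_one u with h0 | h0 <;>
  rcases Nat.mod_two_eq_zero_or_one v with h1 | h1 <;>
  rcases Nat.mod_two_eq_zero_or_one w with h2 | h2 <;>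
  rcases Nat.mod_two_eq_zero_or_one t with h3 | h3 <;>
  simp only [h0, h1, h2, h3] at h ⊢ <;> subst h <;> decide

theorem cand_imm (k : ℕ) (R : Multiset Gen) : cand k (imm (nimv R) + R) := by
  obtain ⟨e0, e1, e2, e3⟩ := bits_of _ _ _ _ (nimv R) rfl
  simp only [cand, cnt_cons, cnt_add, cnt_imm, cnt_zero, vec, Nat.reduceEqDiff, ↓reduceIte,
    mul_one, mul_zero, add_zero, zero_add]
  rw [e0, e1, e2, e3]
  clear e0 e1 e2 e3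
  refine Or.inl ⟨?_, ?_, ?_, ?_, ?_⟩ <;> omega

theorem ex_a {P : Multiset Gen} (h : 1 ≤ cnt 0 P) : ∃ R, P = a ::ₘ R := by
  obtain ⟨g, R, rfl, hg⟩ := exists_of_cnt h
  cases g <;> simp [vec] at hg
  exact ⟨R, rfl⟩

theorem ex_b {P : Multiset Gen} (h : 1 ≤ cnt 1 P) : ∃ R, P = b ::ₘ R := by
  obtain ⟨g, R, rfl, hg⟩ := exists_of_cnt h
  cases g <;> simp [vec] at hg
  exact ⟨R, rfl⟩

theorem ex_d {P : Multiset Gen} (h : 1 ≤ cnt 2 P) : ∃ R, P = d ::ₘ R := by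
  obtain ⟨g, R, rfl, hg⟩ := exists_of_cnt h
  cases g <;> simp [vec] at hg
  exact ⟨R, rfl⟩

theorem ex_e {P : Multiset Gen} (h : 1 ≤ cnt 3 P) : ∃ R, P = e ::ₘ R := by
  obtain ⟨g, R, rfl, hg⟩ := exists_of_cnt h
  cases g <;> simp [vec] at hg
  exact ⟨R, rfl⟩

theorem ex_W {P : Multiset Gen} (h : 1 ≤ cnt 4 P) : ∃ R, P = W ::ₘ R := by
  obtain ⟨g, R, rfl, hg⟩ := exists_of_cnt h
  cases g <;> simp [vec] at hg
  exact ⟨R, rfl⟩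

theorem ex_B {P : Multiset Gen} (h : 1 ≤ cnt 5 P) : ∃ R, P = B ::ₘ R := by
  obtain ⟨g, R, rfl, hg⟩ := exists_of_cnt h
  cases g <;> simp [vec] at hg
  exact ⟨R, rfl⟩

theorem ex_s {P : Multiset Gen} (h : 1 ≤ cnt 6 P) : ∃ R, P = s ::ₘ R := by
  obtain ⟨g, R, rfl, hg⟩ := exists_of_cnt h
  cases g <;> simp [vec] at hg
  exact ⟨R, rfl⟩

theorem ex_q {P : Multiset Gen} (h : 1 ≤ cnt 7 P) : ∃ R, P = q ::ₘ R := by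
  obtain ⟨g, R, rfl, hg⟩ := exists_of_cnt h
  cases g <;> simp [vec] at hg
  exact ⟨R, rfl⟩

theorem ex_z {P : Multiset Gen} (h : 1 ≤ cnt 8 P) : ∃ R, P = z ::ₘ R := by
  obtain ⟨g, R, rfl, hg⟩ := exists_of_cnt h
  cases g <;> simp [vec] at hg
  exact ⟨R, rfl⟩

theorem ex_x {P : Multiset Gen} (h : 1 ≤ cnt 9 P) : ∃ R, P = x ::ₘ R := by
  obtain ⟨g, R, rfl, hg⟩ := exists_of_cnt h
  cases g <;> simp [vec] at hg
  exact ⟨R, rfl⟩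

theorem ex_c {P : Multiset Gen} (h : 1 ≤ cnt 10 P) : ∃ i R, P = c i ::ₘ R := by
  obtain ⟨g, R, rfl, hg⟩ := exists_of_cnt h
  cases g <;> simp [vec] at hg
  exact ⟨_, R, rfl⟩

theorem mv_a_0 {k : ℕ} {P : Multiset Gen} (h1 : 1 ≤ cnt 0 P)
    (h : G (2 * k + 4) (ph k (cnt 9 P)) (cnt 0 P - 1) (cnt 1 P) (cnt 2 P) (cnt 3 P) (cnt 4 P) (cnt 5 P) (cnt 6 P) (cnt 7 P) (cnt 8 P) (cnt 9 P) (cnt 10 P) (cnt 11 P)) : Win k P := by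
  obtain ⟨R, rfl⟩ := ex_a h1
  refine ⟨0 + R, ⟨a, _, R, by simp [opts], rfl, rfl⟩, ?_⟩
  simp only [cand, cnt_cons, cnt_add, cnt_zero, vec, prev, Nat.reduceEqDiff, ↓reduceIte, add_zero, zero_add, add_tsub_cancel_left] at h ⊢
  exact h

theorem mv_b_0 {k : ℕ} {P : Multiset Gen} (h1 : 1 ≤ cnt 1 P)
    (h : G (2 * k + 4) (ph k (cnt 9 P)) (cnt 0 P) (cnt 1 P - 1) (cnt 2 P) (cnt 3 P) (cnt 4 P) (cnt 5 P) (cnt 6 P) (cnt 7 P) (cnt 8 P) (cnt 9 P) (cnt 10 P) (cnt 11 P)) : Win k P := by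
  obtain ⟨R, rfl⟩ := ex_b h1
  refine ⟨0 + R, ⟨b, _, R, by simp [opts], rfl, rfl⟩, ?_⟩
  simp only [cand, cnt_cons, cnt_add, cnt_zero, vec, prev, Nat.reduceEqDiff, ↓reduceIte, add_zero, zero_add, add_tsub_cancel_left] at h ⊢
  exact h

theorem mv_b_1 {k : ℕ} {P : Multiset Gen} (h1 : 1 ≤ cnt 1 P)
    (h : G (2 * k + 4) (ph k (cnt 9 P)) (1 + cnt 0 P) (cnt 1 P - 1) (cnt 2 P) (cnt 3 P) (cnt 4 P) (cnt 5 P) (cnt 6 P) (cnt 7 P) (cnt 8 P) (cnt 9 P) (cnt 10 P) (cnt 11 P)) : Win k P := by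
  obtain ⟨R, rfl⟩ := ex_b h1
  refine ⟨(a ::ₘ 0) + R, ⟨b, _, R, by simp [opts], rfl, rfl⟩, ?_⟩
  simp only [cand, cnt_cons, cnt_add, cnt_zero, vec, prev, Nat.reduceEqDiff, ↓reduceIte, add_zero, zero_add, add_tsub_cancel_left] at h ⊢
  exact h

theorem mv_W_0 {k : ℕ} {P : Multiset Gen} (h1 : 1 ≤ cnt 4 P)
    (h : G (2 * k + 4) (ph k (cnt 9 P)) (1 + cnt 0 P) (cnt 1 P) (cnt 2 P) (cnt 3 P) (cnt 4 P - 1) (cnt 5 P) (cnt 6 P) (cnt 7 P) (cnt 8 P) (cnt 9 P) (cnt 10 P) (cnt 11 P)) : Win k P := by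
  obtain ⟨R, rfl⟩ := ex_W h1
  refine ⟨(a ::ₘ 0) + R, ⟨W, _, R, by simp [opts], rfl, rfl⟩, ?_⟩
  simp only [cand, cnt_cons, cnt_add, cnt_zero, vec, prev, Nat.reduceEqDiff, ↓reduceIte, add_zero, zero_add, add_tsub_cancel_left] at h ⊢
  exact h

theorem mv_B_0 {k : ℕ} {P : Multiset Gen} (h1 : 1 ≤ cnt 5 P)
    (h : G (2 * k + 4) (ph k (cnt 9 P)) (cnt 0 P) (cnt 1 P) (cnt 2 P) (cnt 3 P) (cnt 4 P) (cnt 5 P - 1) (cnt 6 P) (cnt 7 P) (cnt 8 P) (cnt 9 P) (cnt 10 P) (cnt 11 P)) : Win k P := by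
  obtain ⟨R, rfl⟩ := ex_B h1
  refine ⟨0 + R, ⟨B, _, R, by simp [opts], rfl, rfl⟩, ?_⟩
  simp only [cand, cnt_cons, cnt_add, cnt_zero, vec, prev, Nat.reduceEqDiff, ↓reduceIte, add_zero, zero_add, add_tsub_cancel_left] at h ⊢
  exact h

theorem mv_B_1 {k : ℕ} {P : Multiset Gen} (h1 : 1 ≤ cnt 5 P)
    (h : G (2 * k + 4) (ph k (cnt 9 P)) (1 + cnt 0 P) (cnt 1 P) (cnt 2 P) (cnt 3 P) (cnt 4 P) (cnt 5 P - 1) (cnt 6 P) (cnt 7 P) (cnt 8 P) (cnt 9 P) (cnt 10 P) (cnt 11 P)) : Win k P := by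
  obtain ⟨R, rfl⟩ := ex_B h1
  refine ⟨(a ::ₘ 0) + R, ⟨B, _, R, by simp [opts], rfl, rfl⟩, ?_⟩
  simp only [cand, cnt_cons, cnt_add, cnt_zero, vec, prev, Nat.reduceEqDiff, ↓reduceIte, add_zero, zero_add, add_tsub_cancel_left] at h ⊢
  exact h

theorem mv_s_0 {k : ℕ} {P : Multiset Gen} (h1 : 1 ≤ cnt 6 P)
    (h : G (2 * k + 4) (ph k (cnt 9 P)) (1 + cnt 0 P) (cnt 1 P) (cnt 2 P) (cnt 3 P) (1 + cnt 4 P) (cnt 5 P) (cnt 6 P - 1) (cnt 7 P) (cnt 8 P) (cnt 9 P) (cnt 10 P) (cnt 11 P)) : Win k P := by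
  obtain ⟨R, rfl⟩ := ex_s h1
  refine ⟨(a ::ₘ W ::ₘ 0) + R, ⟨s, _, R, by simp [opts], rfl, rfl⟩, ?_⟩
  simp only [cand, cnt_cons, cnt_add, cnt_zero, vec, prev, Nat.reduceEqDiff, ↓reduceIte, add_zero, zero_add, add_tsub_cancel_left] at h ⊢
  exact h

theorem mv_q_0 {k : ℕ} {P : Multiset Gen} (h1 : 1 ≤ cnt 7 P)
    (h : G (2 * k + 4) (ph k (cnt 9 P)) (cnt 0 P) (cnt 1 P) (cnt 2 P) (cnt 3 P) (1 + cnt 4 P) (cnt 5 P) (cnt 6 P) (cnt 7 P - 1) (cnt 8 P) (cnt 9 P) (cnt 10 P) (cnt 11 P)) : Win k P := by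
  obtain ⟨R, rfl⟩ := ex_q h1
  refine ⟨(W ::ₘ 0) + R, ⟨q, _, R, by simp [opts], rfl, rfl⟩, ?_⟩
  simp only [cand, cnt_cons, cnt_add, cnt_zero, vec, prev, Nat.reduceEqDiff, ↓reduceIte, add_zero, zero_add, add_tsub_cancel_left] at h ⊢
  exact h

theorem mv_q_1 {k : ℕ} {P : Multiset Gen} (h1 : 1 ≤ cnt 7 P)
    (h : G (2 * k + 4) (ph k (cnt 9 P)) (1 + cnt 0 P) (cnt 1 P) (cnt 2 P) (cnt 3 P) (1 + cnt 4 P) (cnt 5 P) (cnt 6 P) (cnt 7 P - 1) (cnt 8 P) (cnt 9 P) (cnt 10 P) (cnt 11 P)) : Win k P := by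
  obtain ⟨R, rfl⟩ := ex_q h1
  refine ⟨(a ::ₘ W ::ₘ 0) + R, ⟨q, _, R, by simp [opts], rfl, rfl⟩, ?_⟩
  simp only [cand, cnt_cons, cnt_add, cnt_zero, vec, prev, Nat.reduceEqDiff, ↓reduceIte, add_zero, zero_add, add_tsub_cancel_left] at h ⊢
  exact h

theorem mv_q_2 {k : ℕ} {P : Multiset Gen} (h1 : 1 ≤ cnt 7 P)
    (h : G (2 * k + 4) (ph k (cnt 9 P)) (cnt 0 P) (cnt 1 P) (cnt 2 P) (cnt 3 P) (cnt 4 P) (1 + cnt 5 P) (cnt 6 P) (cnt 7 P - 1) (cnt 8 P) (cnt 9 P) (cnt 10 P) (cnt 11 P)) : Win k P := by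
  obtain ⟨R, rfl⟩ := ex_q h1
  refine ⟨(B ::ₘ 0) + R, ⟨q, _, R, by simp [opts], rfl, rfl⟩, ?_⟩
  simp only [cand, cnt_cons, cnt_add, cnt_zero, vec, prev, Nat.reduceEqDiff, ↓reduceIte, add_zero, zero_add, add_tsub_cancel_left] at h ⊢
  exact h

theorem mv_z_0 {k : ℕ} {P : Multiset Gen} (h1 : 1 ≤ cnt 8 P)
    (h : G (2 * k + 4) (ph k (cnt 9 P)) (cnt 0 P) (cnt 1 P) (cnt 2 P) (cnt 3 P) (1 + cnt 4 P) (cnt 5 P) (cnt 6 P) (cnt 7 P) (cnt 8 P - 1) (cnt 9 P) (cnt 10 P) (cnt 11 P)) : Win k P := by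
  obtain ⟨R, rfl⟩ := ex_z h1
  refine ⟨(W ::ₘ 0) + R, ⟨z, _, R, by simp [opts], rfl, rfl⟩, ?_⟩
  simp only [cand, cnt_cons, cnt_add, cnt_zero, vec, prev, Nat.reduceEqDiff, ↓reduceIte, add_zero, zero_add, add_tsub_cancel_left] at h ⊢
  exact h

theorem mv_z_1 {k : ℕ} {P : Multiset Gen} (h1 : 1 ≤ cnt 8 P)
    (h : G (2 * k + 4) (ph k (cnt 9 P)) (1 + cnt 0 P) (cnt 1 P) (cnt 2 P) (cnt 3 P) (1 + cnt 4 P) (cnt 5 P) (cnt 6 P) (cnt 7 P) (cnt 8 P - 1) (cnt 9 P) (cnt 10 P) (cnt 11 P)) : Win k P := by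
  obtain ⟨R, rfl⟩ := ex_z h1
  refine ⟨(a ::ₘ W ::ₘ 0) + R, ⟨z, _, R, by simp [opts], rfl, rfl⟩, ?_⟩
  simp only [cand, cnt_cons, cnt_add, cnt_zero, vec, prev, Nat.reduceEqDiff, ↓reduceIte, add_zero, zero_add, add_tsub_cancel_left] at h ⊢
  exact h

theorem mv_z_2 {k : ℕ} {P : Multiset Gen} (h1 : 1 ≤ cnt 8 P)
    (h : G (2 * k + 4) (ph k (cnt 9 P)) (cnt 0 P) (cnt 1 P) (cnt 2 P) (cnt 3 P) (cnt 4 P) (1 + cnt 5 P) (cnt 6 P) (cnt 7 P) (cnt 8 P - 1) (cnt 9 P) (cnt 10 P) (cnt 11 P)) : Win k P := by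
  obtain ⟨R, rfl⟩ := ex_z h1
  refine ⟨(B ::ₘ 0) + R, ⟨z, _, R, by simp [opts], rfl, rfl⟩, ?_⟩
  simp only [cand, cnt_cons, cnt_add, cnt_zero, vec, prev, Nat.reduceEqDiff, ↓reduceIte, add_zero, zero_add, add_tsub_cancel_left] at h ⊢
  exact h

theorem mv_z_3 {k : ℕ} {P : Multiset Gen} (h1 : 1 ≤ cnt 8 P)
    (h : G (2 * k + 4) (ph k (cnt 9 P)) (1 + cnt 0 P) (cnt 1 P) (cnt 2 P) (cnt 3 P) (cnt 4 P) (cnt 5 P) (1 + cnt 6 P) (cnt 7 P) (cnt 8 P - 1) (cnt 9 P) (cnt 10 P) (cnt 11 P)) : Win k P := by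
  obtain ⟨R, rfl⟩ := ex_z h1
  refine ⟨(a ::ₘ s ::ₘ 0) + R, ⟨z, _, R, by simp [opts], rfl, rfl⟩, ?_⟩
  simp only [cand, cnt_cons, cnt_add, cnt_zero, vec, prev, Nat.reduceEqDiff, ↓reduceIte, add_zero, zero_add, add_tsub_cancel_left] at h ⊢
  exact h

theorem mv_z_4 {k : ℕ} {P : Multiset Gen} (h1 : 1 ≤ cnt 8 P)
    (h : G (2 * k + 4) (ph k (cnt 9 P)) (1 + cnt 0 P) (cnt 1 P) (cnt 2 P) (cnt 3 P) (cnt 4 P) (cnt 5 P) (cnt 6 P) (cnt 7 P) (cnt 8 P - 1) (cnt 9 P) (1 + cnt 10 P) (2 * k + cnt 11 P)) : Win k P := by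
  obtain ⟨R, rfl⟩ := ex_z h1
  refine ⟨(a ::ₘ c (2 * k) ::ₘ 0) + R, ⟨z, _, R, by simp [opts], rfl, rfl⟩, ?_⟩
  simp only [cand, cnt_cons, cnt_add, cnt_zero, vec, prev, Nat.reduceEqDiff, ↓reduceIte, add_zero, zero_add, add_tsub_cancel_left] at h ⊢
  exact h

theorem mv_x_0 {k : ℕ} {P : Multiset Gen} (h1 : 1 ≤ cnt 9 P)
    (h : G (2 * k + 4) (ph k (cnt 9 P - 1)) (cnt 0 P) (cnt 1 P) (cnt 2 P) (cnt 3 P) (cnt 4 P) (cnt 5 P) (cnt 6 P) (cnt 7 P) (cnt 8 P) (cnt 9 P - 1) (cnt 10 P) (cnt 11 P)) : Win k P := by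
  obtain ⟨R, rfl⟩ := ex_x h1
  refine ⟨0 + R, ⟨x, _, R, by simp [opts], rfl, rfl⟩, ?_⟩
  simp only [cand, cnt_cons, cnt_add, cnt_zero, vec, prev, Nat.reduceEqDiff, ↓reduceIte, add_zero, zero_add, add_tsub_cancel_left] at h ⊢
  exact h

theorem mv_x_1 {k : ℕ} {P : Multiset Gen} (h1 : 1 ≤ cnt 9 P)
    (h : G (2 * k + 4) (ph k (cnt 9 P - 1)) (cnt 0 P) (cnt 1 P) (cnt 2 P) (cnt 3 P) (cnt 4 P) (cnt 5 P) (cnt 6 P) (cnt 7 P) (1 + cnt 8 P) (cnt 9 P - 1) (cnt 10 P) (cnt 11 P)) : Win k P := by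
  obtain ⟨R, rfl⟩ := ex_x h1
  refine ⟨(z ::ₘ 0) + R, ⟨x, _, R, by simp [opts], rfl, rfl⟩, ?_⟩
  simp only [cand, cnt_cons, cnt_add, cnt_zero, vec, prev, Nat.reduceEqDiff, ↓reduceIte, add_zero, zero_add, add_tsub_cancel_left] at h ⊢
  exact h

theorem mv_c_0 {k : ℕ} {P : Multiset Gen} (h1 : 1 ≤ cnt 10 P)
    (h : ∀ sc, G (2 * k + 4) (ph k (cnt 9 P)) (cnt 0 P) (cnt 1 P) (cnt 2 P) (cnt 3 P) (1 + cnt 4 P) (cnt 5 P) (cnt 6 P) (cnt 7 P) (cnt 8 P) (cnt 9 P) (cnt 10 P - 1) (sc)) : Win k P := by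
  obtain ⟨i, R, rfl⟩ := ex_c h1
  refine ⟨(W ::ₘ 0) + R, ⟨c i, _, R, by simp [opts], rfl, rfl⟩, ?_⟩
  simp only [cand, cnt_cons, cnt_add, cnt_zero, vec, prev, Nat.reduceEqDiff, ↓reduceIte, add_zero, zero_add, add_tsub_cancel_left] at h ⊢
  exact h _

theorem mv_c_1 {k : ℕ} {P : Multiset Gen} (h1 : 1 ≤ cnt 10 P)
    (h : ∀ sc, G (2 * k + 4) (ph k (cnt 9 P)) (1 + cnt 0 P) (cnt 1 P) (cnt 2 P) (cnt 3 P) (1 + cnt 4 P) (cnt 5 P) (cnt 6 P) (cnt 7 P) (cnt 8 P) (cnt 9 P) (cnt 10 P - 1) (sc)) : Win k P := by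
  obtain ⟨i, R, rfl⟩ := ex_c h1
  refine ⟨(a ::ₘ W ::ₘ 0) + R, ⟨c i, _, R, by simp [opts], rfl, rfl⟩, ?_⟩
  simp only [cand, cnt_cons, cnt_add, cnt_zero, vec, prev, Nat.reduceEqDiff, ↓reduceIte, add_zero, zero_add, add_tsub_cancel_left] at h ⊢
  exact h _

theorem mv_c_2a {k : ℕ} {P : Multiset Gen} (h1 : cnt 10 P = 1) (h2 : cnt 11 P = 0)
    (h : G (2 * k + 4) (ph k (cnt 9 P)) (1 + cnt 0 P) (cnt 1 P) (cnt 2 P) (cnt 3 P) (cnt 4 P) (cnt 5 P) (cnt 6 P) (1 + cnt 7 P) (cnt 8 P) (cnt 9 P) (cnt 10 P - 1) (cnt 11 P)) : Win k P := by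
  obtain ⟨i, R, rfl⟩ := ex_c h1.ge
  have hi : i = 0 := by
    simp only [cnt_cons, vec, Nat.reduceEqDiff, ↓reduceIte] at h2
    omega
  subst hi
  refine ⟨(a ::ₘ prev 0 ::ₘ 0) + R, ⟨c 0, _, R, by simp [opts], rfl, rfl⟩, ?_⟩
  simp only [cand, cnt_cons, cnt_add, cnt_zero, vec, prev, Nat.reduceEqDiff, ↓reduceIte, add_zero, zero_add, add_tsub_cancel_left] at h ⊢
  exact h

theorem mv_c_2b {k : ℕ} {P : Multiset Gen} (h1 : cnt 10 P = 1) (h2 : 1 ≤ cnt 11 P)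
    (h : G (2 * k + 4) (ph k (cnt 9 P)) (1 + cnt 0 P) (cnt 1 P) (cnt 2 P) (cnt 3 P) (cnt 4 P) (cnt 5 P) (cnt 6 P) (cnt 7 P) (cnt 8 P) (cnt 9 P) (cnt 10 P) (cnt 11 P - 1)) : Win k P := by
  obtain ⟨i, R, rfl⟩ := ex_c h1.ge
  have hR := sc_zero R
  have hi : ∃ j, i = j + 1 := by
    simp only [cnt_cons, vec, Nat.reduceEqDiff, ↓reduceIte] at h1 h2
    exact ⟨i - 1, by omega⟩
  obtain ⟨j, rfl⟩ := hi
  refine ⟨(a ::ₘ prev (j + 1) ::ₘ 0) + R, ⟨c (j + 1), _, R, by simp [opts], rfl, rfl⟩, ?_⟩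
  simp only [cand, cnt_cons, cnt_add, cnt_zero, vec, prev, Nat.reduceEqDiff, ↓reduceIte, add_zero, zero_add, add_tsub_cancel_left] at h ⊢
  rw [show j + 1 + cnt 11 R - 1 = j + cnt 11 R by omega] at h
  exact h

theorem im_d {k : ℕ} {P : Multiset Gen} (h1 : 1 ≤ cnt 2 P)
    (h : 4 ≤ nimv P ∧ nimv P < 8) : Win k P := by
  obtain ⟨R, rfl⟩ := ex_d h1
  refine ⟨imm (nimv R) + R, ⟨d, _, R, ?_, rfl, rfl⟩, cand_imm k R⟩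
  have h2 : nimv R < 4 := by
    clear h1
    simp only [nimv, cnt_cons, vec, Nat.reduceEqDiff, ↓reduceIte, add_zero, zero_add] at h ⊢
    omega
  have h3 : imm (nimv R) ∈ immL 4 [] := mem_immL.2 ⟨_, by omega, by simp; all_goals omega, rfl⟩
  simp only [opts, List.mem_cons, h3, or_true]

theorem im_e {k : ℕ} {P : Multiset Gen} (h1 : 1 ≤ cnt 3 P)
    (h : 8 ≤ nimv P) : Win k P := by
  obtain ⟨R, rfl⟩ := ex_e h1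
  refine ⟨imm (nimv R) + R, ⟨e, _, R, ?_, rfl, rfl⟩, cand_imm k R⟩
  have h2 : nimv R < 8 := by
    clear h1
    simp only [nimv, cnt_cons, vec, Nat.reduceEqDiff, ↓reduceIte, add_zero, zero_add] at h ⊢
    omega
  have h3 : imm (nimv R) ∈ immL 8 [] := mem_immL.2 ⟨_, by omega, by simp; all_goals omega, rfl⟩
  simp only [opts, List.mem_cons, h3, or_true]

theorem im_W {k : ℕ} {P : Multiset Gen} (h1 : 1 ≤ cnt 4 P)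
    (h : nimv P ≠ 0) : Win k P := by
  obtain ⟨R, rfl⟩ := ex_W h1
  refine ⟨imm (nimv R) + R, ⟨W, _, R, ?_, rfl, rfl⟩, cand_imm k R⟩
  have h2 : nimv R < 16 ∧ nimv R ≠ 0 := by
    clear h1
    simp only [nimv, cnt_cons, vec, Nat.reduceEqDiff, ↓reduceIte, add_zero, zero_add] at h ⊢
    omega
  have h3 : imm (nimv R) ∈ immL 16 [0] := mem_immL.2 ⟨_, by omega, by simp; all_goals omega, rfl⟩
  simp only [opts, List.mem_cons, h3, or_true]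

theorem im_B {k : ℕ} {P : Multiset Gen} (h1 : 1 ≤ cnt 5 P)
    (h : nimv P ≠ 4 ∧ nimv P ≠ 5 ∧ nimv P ≠ 0 ∧ nimv P ≠ 12) : Win k P := by
  obtain ⟨R, rfl⟩ := ex_B h1
  refine ⟨imm (nimv R) + R, ⟨B, _, R, ?_, rfl, rfl⟩, cand_imm k R⟩
  have h2 : nimv R < 16 ∧ nimv R ≠ 0 ∧ nimv R ≠ 1 ∧ nimv R ≠ 4 ∧ nimv R ≠ 8 := by
    clear h1
    simp only [nimv, cnt_cons, vec, Nat.reduceEqDiff, ↓reduceIte, add_zero, zero_add] at h ⊢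
    omega
  have h3 : imm (nimv R) ∈ immL 16 [0, 1, 4, 8] := mem_immL.2 ⟨_, by omega, by simp; all_goals omega, rfl⟩
  simp only [opts, List.mem_cons, h3, or_true]

theorem im_s {k : ℕ} {P : Multiset Gen} (h1 : 1 ≤ cnt 6 P)
    (h : nimv P ≠ 9 ∧ nimv P ≠ 0) : Win k P := by
  obtain ⟨R, rfl⟩ := ex_s h1
  refine ⟨imm (nimv R) + R, ⟨s, _, R, ?_, rfl, rfl⟩, cand_imm k R⟩
  have h2 : nimv R < 16 ∧ nimv R ≠ 1 ∧ nimv R ≠ 8 := by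
    clear h1
    simp only [nimv, cnt_cons, vec, Nat.reduceEqDiff, ↓reduceIte, add_zero, zero_add] at h ⊢
    omega
  have h3 : imm (nimv R) ∈ immL 16 [1, 8] := mem_immL.2 ⟨_, by omega, by simp; all_goals omega, rfl⟩
  simp only [opts, List.mem_cons, h3, or_true]

theorem im_q {k : ℕ} {P : Multiset Gen} (h1 : 1 ≤ cnt 7 P)
    (h : nimv P ≠ 8 ∧ nimv P ≠ 9 ∧ nimv P ≠ 0) : Win k P := by
  obtain ⟨R, rfl⟩ := ex_q h1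
  refine ⟨imm (nimv R) + R, ⟨q, _, R, ?_, rfl, rfl⟩, cand_imm k R⟩
  have h2 : nimv R < 16 ∧ nimv R ≠ 0 ∧ nimv R ≠ 1 ∧ nimv R ≠ 8 := by
    clear h1
    simp only [nimv, cnt_cons, vec, Nat.reduceEqDiff, ↓reduceIte, add_zero, zero_add] at h ⊢
    omega
  have h3 : imm (nimv R) ∈ immL 16 [0, 1, 8] := mem_immL.2 ⟨_, by omega, by simp; all_goals omega, rfl⟩
  simp only [opts, List.mem_cons, h3, or_true]

theorem im_z {k : ℕ} {P : Multiset Gen} (h1 : 1 ≤ cnt 8 P)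
    (h : nimv P ≠ 8 ∧ nimv P ≠ 9 ∧ nimv P ≠ 12 ∧ nimv P ≠ 0) : Win k P := by
  obtain ⟨R, rfl⟩ := ex_z h1
  refine ⟨imm (nimv R) + R, ⟨z, _, R, ?_, rfl, rfl⟩, cand_imm k R⟩
  have h2 : nimv R < 16 ∧ nimv R ≠ 0 ∧ nimv R ≠ 1 ∧ nimv R ≠ 4 ∧ nimv R ≠ 8 := by
    clear h1
    simp only [nimv, cnt_cons, vec, Nat.reduceEqDiff, ↓reduceIte, add_zero, zero_add] at h ⊢
    omega
  have h3 : imm (nimv R) ∈ immL 16 [0, 1, 4, 8] := mem_immL.2 ⟨_, by omega, by simp; all_goals omega, rfl⟩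
  simp only [opts, List.mem_cons, h3, or_true]

theorem im_x {k : ℕ} {P : Multiset Gen} (h1 : 1 ≤ cnt 9 P)
    (h : nimv P = 2 ∨ nimv P = 3) : Win k P := by
  obtain ⟨R, rfl⟩ := ex_x h1
  refine ⟨imm (nimv R) + R, ⟨x, _, R, ?_, rfl, rfl⟩, cand_imm k R⟩
  have h2 : nimv R < 4 ∧ nimv R ≠ 0 ∧ nimv R ≠ 1 := by
    clear h1
    simp only [nimv, cnt_cons, vec, Nat.reduceEqDiff, ↓reduceIte, add_zero, zero_add] at h ⊢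
    omega
  have h3 : imm (nimv R) ∈ immL 4 [0, 1] := mem_immL.2 ⟨_, by omega, by simp; all_goals omega, rfl⟩
  simp only [opts, List.mem_cons, h3, or_true]

theorem im_c {k : ℕ} {P : Multiset Gen} (h1 : 1 ≤ cnt 10 P)
    (h : nimv P ≠ 6 ∧ nimv P ≠ 7 ∧ nimv P ≠ 0) : Win k P := by
  obtain ⟨i, R, rfl⟩ := ex_c h1
  refine ⟨imm (nimv R) + R, ⟨c i, _, R, ?_, rfl, rfl⟩, cand_imm k R⟩
  have h2 : nimv R < 16 ∧ nimv R ≠ 0 ∧ nimv R ≠ 1 ∧ nimv R ≠ 6 := by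
    clear h1
    simp only [nimv, cnt_cons, vec, Nat.reduceEqDiff, ↓reduceIte, add_zero, zero_add] at h ⊢
    omega
  have h3 : imm (nimv R) ∈ immL 16 [0, 1, 6] := mem_immL.2 ⟨_, by omega, by simp; all_goals omega, rfl⟩
  simp only [opts, List.mem_cons, h3, or_true]

end Pool.Agent.H393Z.Mis
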