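import Pool.Agent.H393Z.Mis.Sys

set_option autoImplicit false
set_option linter.unusedSimpArgs false
set_option linter.unusedVariables false
set_option linter.unusedTactic false
set_option linter.unreachableTactic false

namespace Pool.Agent.H393Z.Mis

open Gen

def nimv (R : Multiset Gen) : ℕ :=
  (cnt 0 R + cnt 9 R) % 2 + 2 * ((cnt 1 R + cnt 10 R) % 2) +
    4 * ((cnt 2 R + cnt 5 R + cnt 10 R) % 2) + 8 * ((cnt 3 R + cnt 6 R + cnt 7 R + cnt 8 R) % 2)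

theorem bits_eq (n u v w t : ℕ) (hn : n < 16) (h0 : (n % 2 + u) % 2 = 0)
    (h1 : (2 + n / 2 % 2 + v) % 2 = 0) (h2 : (n / 4 % 2 + w) % 2 = 0)
    (h3 : (n / 8 % 2 + t) % 2 = 0) :
    n = u % 2 + 2 * (v % 2) + 4 * (w % 2) + 8 * (t % 2) := by
  have e0 : n % 2 = u % 2 := by omega
  have e1 : n / 2 % 2 = v % 2 := by omega
  have e2 : n / 4 % 2 = w % 2 := by omega
  have e3 : n / 8 % 2 = t % 2 := by omega
  rw [← e0, ← e1, ← e2, ← e3]
  interval_cases n <;> rfl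

theorem imm_val (k n : ℕ) (hn : n < 16) (R : Multiset Gen) (h2 : cand k (imm n + R)) :
    n = nimv R := by
  simp only [cand, cnt_cons, cnt_add, cnt_imm, cnt_zero, vec, Nat.reduceEqDiff, ↓reduceIte,
    mul_one, mul_zero, add_zero, zero_add] at h2
  rcases h2 with ⟨r1, r2, r3, r4, r5⟩ | ⟨r1, h2⟩
  · unfold nimv
    refine bits_eq n _ _ _ _ hn ?_ ?_ ?_ ?_
    · simpa only [add_assoc] using r2
    · simpa only [add_assoc] using r3
    · simpa only [add_assoc] using r4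
    · simpa only [add_assoc] using r5
  · exfalso
    clear h2
    omega

theorem s1_a_0 (k : ℕ) (R : Multiset Gen) (h1 : cand k (a ::ₘ R))
    (h2 : cand k (0 + R)) : False := by
  simp only [cand, cnt_cons, cnt_add, cnt_zero, vec, prev, Nat.reduceEqDiff, ↓reduceIte, add_zero, zero_add] at h1 h2
  rcases h1 with ⟨p1, p2, p3, p4, p5⟩ | ⟨p1, h1⟩ <;>
    rcases h2 with ⟨r1, r2, r3, r4, r5⟩ | ⟨r1, h2⟩
  · clear p3 r3 p4 r4 p5 r5; omega
  · clear h2 p2 p3 p4 p5; omega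
  · clear h1 r2 r3 r4 r5; omega
  · clear p1 r1
    rcases h1 with h1|h1|h1|h1|h1|h1|h1|h1 <;>
      first
      | (clear h2; omega)
      | (have f1 := ph_facts k (cnt 9 R); have f2 := sc_zero R; rcases h2 with h2|h2|h2|h2|h2|h2|h2|h2 <;> omega)

theorem s1_b_0 (k : ℕ) (R : Multiset Gen) (h1 : cand k (b ::ₘ R))
    (h2 : cand k (0 + R)) : False := by
  simp only [cand, cnt_cons, cnt_add, cnt_zero, vec, prev, Nat.reduceEqDiff, ↓reduceIte, add_zero, zero_add] at h1 h2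
  rcases h1 with ⟨p1, p2, p3, p4, p5⟩ | ⟨p1, h1⟩ <;>
    rcases h2 with ⟨r1, r2, r3, r4, r5⟩ | ⟨r1, h2⟩
  · clear p2 r2 p4 r4 p5 r5; omega
  · clear p1 p2
    rcases h2 with h2|h2|h2|h2|h2|h2|h2|h2 <;> omega
  · clear h1 r2 r3 r4 r5; omega
  · clear h1 h2; omega

theorem s1_b_1 (k : ℕ) (R : Multiset Gen) (h1 : cand k (b ::ₘ R))
    (h2 : cand k ((a ::ₘ 0) + R)) : False := by
  simp only [cand, cnt_cons, cnt_add, cnt_zero, vec, prev, Nat.reduceEqDiff, ↓reduceIte, add_zero, zero_add] at h1 h2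
  rcases h1 with ⟨p1, p2, p3, p4, p5⟩ | ⟨p1, h1⟩ <;>
    rcases h2 with ⟨r1, r2, r3, r4, r5⟩ | ⟨r1, h2⟩
  · clear p3 r3 p4 r4 p5 r5; omega
  · clear p1 p2
    rcases h2 with h2|h2|h2|h2|h2|h2|h2|h2 <;> omega
  · clear h1 r2 r3 r4 r5; omega
  · clear h1 h2; omega

theorem s1_W_0 (k : ℕ) (R : Multiset Gen) (h1 : cand k (W ::ₘ R))
    (h2 : cand k ((a ::ₘ 0) + R)) : False := by
  simp only [cand, cnt_cons, cnt_add, cnt_zero, vec, prev, Nat.reduceEqDiff, ↓reduceIte, add_zero, zero_add] at h1 h2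
  rcases h1 with ⟨p1, p2, p3, p4, p5⟩ | ⟨p1, h1⟩ <;>
    rcases h2 with ⟨r1, r2, r3, r4, r5⟩ | ⟨r1, h2⟩
  · clear p3 r3 p4 r4 p5 r5; omega
  · clear h2 p2 p3 p4 p5; omega
  · clear h1 r2 r3 r4 r5; omega
  · clear p1 r1
    rcases h1 with h1|h1|h1|h1|h1|h1|h1|h1 <;>
      first
      | (clear h2; omega)
      | (have f1 := ph_facts k (cnt 9 R); have f2 := sc_zero R; rcases h2 with h2|h2|h2|h2|h2|h2|h2|h2 <;> omega)

theorem s1_B_0 (k : ℕ) (R : Multiset Gen) (h1 : cand k (B ::ₘ R))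
    (h2 : cand k (0 + R)) : False := by
  simp only [cand, cnt_cons, cnt_add, cnt_zero, vec, prev, Nat.reduceEqDiff, ↓reduceIte, add_zero, zero_add] at h1 h2
  rcases h1 with ⟨p1, p2, p3, p4, p5⟩ | ⟨p1, h1⟩ <;>
    rcases h2 with ⟨r1, r2, r3, r4, r5⟩ | ⟨r1, h2⟩
  · clear p2 r2 p3 r3 p5 r5; omega
  · clear h2 p2 p3 p4 p5; omega
  · clear h1 r2 r3 r4 r5; omega
  · clear p1 r1
    rcases h1 with h1|h1|h1|h1|h1|h1|h1|h1 <;>
      first
      | (clear h2; omega)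
      | (have f1 := ph_facts k (cnt 9 R); have f2 := sc_zero R; rcases h2 with h2|h2|h2|h2|h2|h2|h2|h2 <;> omega)

theorem s1_B_1 (k : ℕ) (R : Multiset Gen) (h1 : cand k (B ::ₘ R))
    (h2 : cand k ((a ::ₘ 0) + R)) : False := by
  simp only [cand, cnt_cons, cnt_add, cnt_zero, vec, prev, Nat.reduceEqDiff, ↓reduceIte, add_zero, zero_add] at h1 h2
  rcases h1 with ⟨p1, p2, p3, p4, p5⟩ | ⟨p1, h1⟩ <;>
    rcases h2 with ⟨r1, r2, r3, r4, r5⟩ | ⟨r1, h2⟩
  · clear p3 r3 p4 r4 p5 r5; omega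
  · clear h2 p2 p3 p4 p5; omega
  · clear h1 r2 r3 r4 r5; omega
  · clear p1 r1
    rcases h1 with h1|h1|h1|h1|h1|h1|h1|h1 <;>
      first
      | (clear h2; omega)
      | (have f1 := ph_facts k (cnt 9 R); have f2 := sc_zero R; rcases h2 with h2|h2|h2|h2|h2|h2|h2|h2 <;> omega)

theorem s1_s_0 (k : ℕ) (R : Multiset Gen) (h1 : cand k (s ::ₘ R))
    (h2 : cand k ((a ::ₘ W ::ₘ 0) + R)) : False := by
  simp only [cand, cnt_cons, cnt_add, cnt_zero, vec, prev, Nat.reduceEqDiff, ↓reduceIte, add_zero, zero_add] at h1 h2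
  rcases h1 with ⟨p1, p2, p3, p4, p5⟩ | ⟨p1, h1⟩ <;>
    rcases h2 with ⟨r1, r2, r3, r4, r5⟩ | ⟨r1, h2⟩
  · clear p3 r3 p4 r4 p5 r5; omega
  · clear h2 p2 p3 p4 p5; omega
  · clear h1 r2 r3 r4 r5; omega
  · clear p1 r1
    rcases h1 with h1|h1|h1|h1|h1|h1|h1|h1 <;>
      first
      | (clear h2; omega)
      | (have f1 := ph_facts k (cnt 9 R); have f2 := sc_zero R; rcases h2 with h2|h2|h2|h2|h2|h2|h2|h2 <;> omega)

theorem s1_q_0 (k : ℕ) (R : Multiset Gen) (h1 : cand k (q ::ₘ R))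
    (h2 : cand k ((W ::ₘ 0) + R)) : False := by
  simp only [cand, cnt_cons, cnt_add, cnt_zero, vec, prev, Nat.reduceEqDiff, ↓reduceIte, add_zero, zero_add] at h1 h2
  rcases h1 with ⟨p1, p2, p3, p4, p5⟩ | ⟨p1, h1⟩ <;>
    rcases h2 with ⟨r1, r2, r3, r4, r5⟩ | ⟨r1, h2⟩
  · clear p2 r2 p3 r3 p4 r4; omega
  · clear h2 p2 p3 p4 p5; omega
  · clear h1 r2 r3 r4 r5; omega
  · clear p1 r1
    rcases h1 with h1|h1|h1|h1|h1|h1|h1|h1 <;>
      first
      | (clear h2; omega)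
      | (have f1 := ph_facts k (cnt 9 R); have f2 := sc_zero R; rcases h2 with h2|h2|h2|h2|h2|h2|h2|h2 <;> omega)

theorem s1_q_1 (k : ℕ) (R : Multiset Gen) (h1 : cand k (q ::ₘ R))
    (h2 : cand k ((a ::ₘ W ::ₘ 0) + R)) : False := by
  simp only [cand, cnt_cons, cnt_add, cnt_zero, vec, prev, Nat.reduceEqDiff, ↓reduceIte, add_zero, zero_add] at h1 h2
  rcases h1 with ⟨p1, p2, p3, p4, p5⟩ | ⟨p1, h1⟩ <;>
    rcases h2 with ⟨r1, r2, r3, r4, r5⟩ | ⟨r1, h2⟩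
  · clear p3 r3 p4 r4 p5 r5; omega
  · clear h2 p2 p3 p4 p5; omega
  · clear h1 r2 r3 r4 r5; omega
  · clear p1 r1
    rcases h1 with h1|h1|h1|h1|h1|h1|h1|h1 <;>
      first
      | (clear h2; omega)
      | (have f1 := ph_facts k (cnt 9 R); have f2 := sc_zero R; rcases h2 with h2|h2|h2|h2|h2|h2|h2|h2 <;> omega)

theorem s1_q_2 (k : ℕ) (R : Multiset Gen) (h1 : cand k (q ::ₘ R))
    (h2 : cand k ((B ::ₘ 0) + R)) : False := by
  simp only [cand, cnt_cons, cnt_add, cnt_zero, vec, prev, Nat.reduceEqDiff, ↓reduceIte, add_zero, zero_add] at h1 h2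
  rcases h1 with ⟨p1, p2, p3, p4, p5⟩ | ⟨p1, h1⟩ <;>
    rcases h2 with ⟨r1, r2, r3, r4, r5⟩ | ⟨r1, h2⟩
  · clear p2 r2 p3 r3 p5 r5; omega
  · clear h2 p2 p3 p4 p5; omega
  · clear h1 r2 r3 r4 r5; omega
  · clear p1 r1
    rcases h1 with h1|h1|h1|h1|h1|h1|h1|h1 <;>
      first
      | (clear h2; omega)
      | (have f1 := ph_facts k (cnt 9 R); have f2 := sc_zero R; rcases h2 with h2|h2|h2|h2|h2|h2|h2|h2 <;> omega)

theorem s1_z_0 (k : ℕ) (R : Multiset Gen) (h1 : cand k (z ::ₘ R))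
    (h2 : cand k ((W ::ₘ 0) + R)) : False := by
  simp only [cand, cnt_cons, cnt_add, cnt_zero, vec, prev, Nat.reduceEqDiff, ↓reduceIte, add_zero, zero_add] at h1 h2
  rcases h1 with ⟨p1, p2, p3, p4, p5⟩ | ⟨p1, h1⟩ <;>
    rcases h2 with ⟨r1, r2, r3, r4, r5⟩ | ⟨r1, h2⟩
  · clear p2 r2 p3 r3 p4 r4; omega
  · clear h2 p2 p3 p4 p5; omega
  · clear h1 r2 r3 r4 r5; omega
  · clear p1 r1
    rcases h1 with h1|h1|h1|h1|h1|h1|h1|h1 <;>
      first
      | (clear h2; omega)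
      | (have f1 := ph_facts k (cnt 9 R); have f2 := sc_zero R; rcases h2 with h2|h2|h2|h2|h2|h2|h2|h2 <;> omega)

theorem s1_z_1 (k : ℕ) (R : Multiset Gen) (h1 : cand k (z ::ₘ R))
    (h2 : cand k ((a ::ₘ W ::ₘ 0) + R)) : False := by
  simp only [cand, cnt_cons, cnt_add, cnt_zero, vec, prev, Nat.reduceEqDiff, ↓reduceIte, add_zero, zero_add] at h1 h2
  rcases h1 with ⟨p1, p2, p3, p4, p5⟩ | ⟨p1, h1⟩ <;>
    rcases h2 with ⟨r1, r2, r3, r4, r5⟩ | ⟨r1, h2⟩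
  · clear p3 r3 p4 r4 p5 r5; omega
  · clear h2 p2 p3 p4 p5; omega
  · clear h1 r2 r3 r4 r5; omega
  · clear p1 r1
    rcases h1 with h1|h1|h1|h1|h1|h1|h1|h1 <;>
      first
      | (clear h2; omega)
      | (have f1 := ph_facts k (cnt 9 R); have f2 := sc_zero R; rcases h2 with h2|h2|h2|h2|h2|h2|h2|h2 <;> omega)

theorem s1_z_2 (k : ℕ) (R : Multiset Gen) (h1 : cand k (z ::ₘ R))
    (h2 : cand k ((B ::ₘ 0) + R)) : False := by
  simp only [cand, cnt_cons, cnt_add, cnt_zero, vec, prev, Nat.reduceEqDiff, ↓reduceIte, add_zero, zero_add] at h1 h2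
  rcases h1 with ⟨p1, p2, p3, p4, p5⟩ | ⟨p1, h1⟩ <;>
    rcases h2 with ⟨r1, r2, r3, r4, r5⟩ | ⟨r1, h2⟩
  · clear p2 r2 p3 r3 p5 r5; omega
  · clear h2 p2 p3 p4 p5; omega
  · clear h1 r2 r3 r4 r5; omega
  · clear p1 r1
    rcases h1 with h1|h1|h1|h1|h1|h1|h1|h1 <;>
      first
      | (clear h2; omega)
      | (have f1 := ph_facts k (cnt 9 R); have f2 := sc_zero R; rcases h2 with h2|h2|h2|h2|h2|h2|h2|h2 <;> omega)

theorem s1_z_3 (k : ℕ) (R : Multiset Gen) (h1 : cand k (z ::ₘ R))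
    (h2 : cand k ((a ::ₘ s ::ₘ 0) + R)) : False := by
  simp only [cand, cnt_cons, cnt_add, cnt_zero, vec, prev, Nat.reduceEqDiff, ↓reduceIte, add_zero, zero_add] at h1 h2
  rcases h1 with ⟨p1, p2, p3, p4, p5⟩ | ⟨p1, h1⟩ <;>
    rcases h2 with ⟨r1, r2, r3, r4, r5⟩ | ⟨r1, h2⟩
  · clear p3 r3 p4 r4 p5 r5; omega
  · clear h2 p2 p3 p4 p5; omega
  · clear h1 r2 r3 r4 r5; omega
  · clear p1 r1
    rcases h1 with h1|h1|h1|h1|h1|h1|h1|h1 <;>
      first
      | (clear h2; omega)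
      | (have f1 := ph_facts k (cnt 9 R); have f2 := sc_zero R; rcases h2 with h2|h2|h2|h2|h2|h2|h2|h2 <;> omega)

theorem s1_z_4 (k : ℕ) (R : Multiset Gen) (h1 : cand k (z ::ₘ R))
    (h2 : cand k ((a ::ₘ c (2 * k) ::ₘ 0) + R)) : False := by
  simp only [cand, cnt_cons, cnt_add, cnt_zero, vec, prev, Nat.reduceEqDiff, ↓reduceIte, add_zero, zero_add] at h1 h2
  rcases h1 with ⟨p1, p2, p3, p4, p5⟩ | ⟨p1, h1⟩ <;>
    rcases h2 with ⟨r1, r2, r3, r4, r5⟩ | ⟨r1, h2⟩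
  · clear p3 r3 p4 r4 p5 r5; omega
  · clear h2 p2 p3 p4 p5; omega
  · clear h1 r2 r3 r4 r5; omega
  · clear p1 r1
    rcases h1 with h1|h1|h1|h1|h1|h1|h1|h1 <;>
      first
      | (clear h2; omega)
      | (have f1 := ph_facts k (cnt 9 R); have f2 := sc_zero R; rcases h2 with h2|h2|h2|h2|h2|h2|h2|h2 <;> omega)

theorem s1_x_0 (k : ℕ) (R : Multiset Gen) (h1 : cand k (x ::ₘ R))
    (h2 : cand k (0 + R)) : False := by
  simp only [cand, cnt_cons, cnt_add, cnt_zero, vec, prev, Nat.reduceEqDiff, ↓reduceIte, add_zero, zero_add] at h1 h2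
  rcases h1 with ⟨p1, p2, p3, p4, p5⟩ | ⟨p1, h1⟩ <;>
    rcases h2 with ⟨r1, r2, r3, r4, r5⟩ | ⟨r1, h2⟩
  · clear p3 r3 p4 r4 p5 r5; omega
  · clear h2 p2 p3 p4 p5; omega
  · clear h1 r2 r3 r4 r5; omega
  · clear p1 r1
    rcases h1 with h1|h1|h1|h1|h1|h1|h1|h1 <;>
      first
      | (clear h2; omega)
      | (have f1 := ph_facts k (cnt 9 R); have f3 := ph_step k (cnt 9 R); have f4 := ph_lt k (1 + cnt 9 R); rw [add_comm (cnt 9 R) 1] at f3; rcases h2 with h2|h2|h2|h2|h2|h2|h2|h2 <;> omega)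

theorem s1_x_1 (k : ℕ) (R : Multiset Gen) (h1 : cand k (x ::ₘ R))
    (h2 : cand k ((z ::ₘ 0) + R)) : False := by
  simp only [cand, cnt_cons, cnt_add, cnt_zero, vec, prev, Nat.reduceEqDiff, ↓reduceIte, add_zero, zero_add] at h1 h2
  rcases h1 with ⟨p1, p2, p3, p4, p5⟩ | ⟨p1, h1⟩ <;>
    rcases h2 with ⟨r1, r2, r3, r4, r5⟩ | ⟨r1, h2⟩
  · clear p3 r3 p4 r4 p5 r5; omega
  · clear h2 p2 p3 p4 p5; omega
  · clear h1 r2 r3 r4 r5; omega
  · clear p1 r1
    rcases h1 with h1|h1|h1|h1|h1|h1|h1|h1 <;>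
      first
      | (clear h2; omega)
      | (have f1 := ph_facts k (cnt 9 R); have f3 := ph_step k (cnt 9 R); have f4 := ph_lt k (1 + cnt 9 R); rw [add_comm (cnt 9 R) 1] at f3; rcases h2 with h2|h2|h2|h2|h2|h2|h2|h2 <;> omega)

theorem s1_c_0 (k : ℕ) (i : ℕ) (R : Multiset Gen) (h1 : cand k (c i ::ₘ R))
    (h2 : cand k ((W ::ₘ 0) + R)) : False := by
  simp only [cand, cnt_cons, cnt_add, cnt_zero, vec, prev, Nat.reduceEqDiff, ↓reduceIte, add_zero, zero_add] at h1 h2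
  rcases h1 with ⟨p1, p2, p3, p4, p5⟩ | ⟨p1, h1⟩ <;>
    rcases h2 with ⟨r1, r2, r3, r4, r5⟩ | ⟨r1, h2⟩
  · clear p2 r2 p4 r4 p5 r5; omega
  · clear h2 p2 p3 p4 p5; omega
  · clear h1 r2 r3 r4 r5; omega
  · clear p1 r1
    rcases h1 with h1|h1|h1|h1|h1|h1|h1|h1 <;>
      first
      | (clear h2; omega)
      | (have f1 := ph_facts k (cnt 9 R); have f2 := sc_zero R; rcases h2 with h2|h2|h2|h2|h2|h2|h2|h2 <;> omega)

theorem s1_c_1 (k : ℕ) (i : ℕ) (R : Multiset Gen) (h1 : cand k (c i ::ₘ R))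
    (h2 : cand k ((a ::ₘ W ::ₘ 0) + R)) : False := by
  simp only [cand, cnt_cons, cnt_add, cnt_zero, vec, prev, Nat.reduceEqDiff, ↓reduceIte, add_zero, zero_add] at h1 h2
  rcases h1 with ⟨p1, p2, p3, p4, p5⟩ | ⟨p1, h1⟩ <;>
    rcases h2 with ⟨r1, r2, r3, r4, r5⟩ | ⟨r1, h2⟩
  · clear p3 r3 p4 r4 p5 r5; omega
  · clear h2 p2 p3 p4 p5; omega
  · clear h1 r2 r3 r4 r5; omega
  · clear p1 r1
    rcases h1 with h1|h1|h1|h1|h1|h1|h1|h1 <;>
      first
      | (clear h2; omega)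
      | (have f1 := ph_facts k (cnt 9 R); have f2 := sc_zero R; rcases h2 with h2|h2|h2|h2|h2|h2|h2|h2 <;> omega)

theorem s1_c_2a (k : ℕ) (R : Multiset Gen) (h1 : cand k (c 0 ::ₘ R))
    (h2 : cand k ((a ::ₘ prev 0 ::ₘ 0) + R)) : False := by
  simp only [cand, cnt_cons, cnt_add, cnt_zero, vec, prev, Nat.reduceEqDiff, ↓reduceIte, add_zero, zero_add] at h1 h2
  rcases h1 with ⟨p1, p2, p3, p4, p5⟩ | ⟨p1, h1⟩ <;>
    rcases h2 with ⟨r1, r2, r3, r4, r5⟩ | ⟨r1, h2⟩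
  · clear p3 r3 p4 r4 p5 r5; omega
  · clear h2 p2 p3 p4 p5; omega
  · clear h1 r2 r3 r4 r5; omega
  · clear p1 r1
    rcases h1 with h1|h1|h1|h1|h1|h1|h1|h1 <;>
      first
      | (clear h2; omega)
      | (have f1 := ph_facts k (cnt 9 R); have f2 := sc_zero R; rcases h2 with h2|h2|h2|h2|h2|h2|h2|h2 <;> omega)

theorem s1_c_2b (k : ℕ) (i : ℕ) (R : Multiset Gen) (h1 : cand k (c (i + 1) ::ₘ R))
    (h2 : cand k ((a ::ₘ prev (i + 1) ::ₘ 0) + R)) : False := by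
  simp only [cand, cnt_cons, cnt_add, cnt_zero, vec, prev, Nat.reduceEqDiff, ↓reduceIte, add_zero, zero_add] at h1 h2
  rcases h1 with ⟨p1, p2, p3, p4, p5⟩ | ⟨p1, h1⟩ <;>
    rcases h2 with ⟨r1, r2, r3, r4, r5⟩ | ⟨r1, h2⟩
  · clear p3 r3 p4 r4 p5 r5; omega
  · clear h2 p2 p3 p4 p5; omega
  · clear h1 r2 r3 r4 r5; omega
  · clear p1 r1
    rcases h1 with h1|h1|h1|h1|h1|h1|h1|h1 <;>
      first
      | (clear h2; omega)
      | (have f1 := ph_facts k (cnt 9 R); have f2 := sc_zero R; rcases h2 with h2|h2|h2|h2|h2|h2|h2|h2 <;> omega)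

theorem s1_d_imm (k : ℕ) (n : ℕ) (hn : n < 4) (hex : n ∉ ([] : List ℕ)) (R : Multiset Gen) (h1 : cand k (d ::ₘ R))
    (h2 : cand k (imm n + R)) : False := by
  have h3 := imm_val k n (by omega) R h2
  clear h2
  simp only [List.mem_cons, List.not_mem_nil, or_false, not_or, not_false_eq_true] at hex
  simp only [cand, cnt_cons, vec, Nat.reduceEqDiff, ↓reduceIte, add_zero, zero_add] at h1
  unfold nimv at h3
  rcases h1 with ⟨p1, p2, p3, p4, p5⟩ | ⟨p1, h1⟩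
  · clear p1; omega
  · rcases h1 with h1|h1|h1|h1|h1|h1|h1|h1 <;> omega

theorem s1_e_imm (k : ℕ) (n : ℕ) (hn : n < 8) (hex : n ∉ ([] : List ℕ)) (R : Multiset Gen) (h1 : cand k (e ::ₘ R))
    (h2 : cand k (imm n + R)) : False := by
  have h3 := imm_val k n (by omega) R h2
  clear h2
  simp only [List.mem_cons, List.not_mem_nil, or_false, not_or, not_false_eq_true] at hex
  simp only [cand, cnt_cons, vec, Nat.reduceEqDiff, ↓reduceIte, add_zero, zero_add] at h1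
  unfold nimv at h3
  rcases h1 with ⟨p1, p2, p3, p4, p5⟩ | ⟨p1, h1⟩
  · clear p1; omega
  · rcases h1 with h1|h1|h1|h1|h1|h1|h1|h1 <;> omega

theorem s1_W_imm (k : ℕ) (n : ℕ) (hn : n < 16) (hex : n ∉ ([0] : List ℕ)) (R : Multiset Gen) (h1 : cand k (W ::ₘ R))
    (h2 : cand k (imm n + R)) : False := by
  have h3 := imm_val k n (by omega) R h2
  clear h2
  simp only [List.mem_cons, List.not_mem_nil, or_false, not_or, not_false_eq_true] at hex
  simp only [cand, cnt_cons, vec, Nat.reduceEqDiff, ↓reduceIte, add_zero, zero_add] at h1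
  unfold nimv at h3
  rcases h1 with ⟨p1, p2, p3, p4, p5⟩ | ⟨p1, h1⟩
  · clear p1; omega
  · rcases h1 with h1|h1|h1|h1|h1|h1|h1|h1 <;> omega

theorem s1_B_imm (k : ℕ) (n : ℕ) (hn : n < 16) (hex : n ∉ ([0, 1, 4, 8] : List ℕ)) (R : Multiset Gen) (h1 : cand k (B ::ₘ R))
    (h2 : cand k (imm n + R)) : False := by
  have h3 := imm_val k n (by omega) R h2
  clear h2
  simp only [List.mem_cons, List.not_mem_nil, or_false, not_or, not_false_eq_true] at hex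
  simp only [cand, cnt_cons, vec, Nat.reduceEqDiff, ↓reduceIte, add_zero, zero_add] at h1
  unfold nimv at h3
  rcases h1 with ⟨p1, p2, p3, p4, p5⟩ | ⟨p1, h1⟩
  · clear p1; omega
  · rcases h1 with h1|h1|h1|h1|h1|h1|h1|h1 <;> omega

theorem s1_s_imm (k : ℕ) (n : ℕ) (hn : n < 16) (hex : n ∉ ([1, 8] : List ℕ)) (R : Multiset Gen) (h1 : cand k (s ::ₘ R))
    (h2 : cand k (imm n + R)) : False := by
  have h3 := imm_val k n (by omega) R h2
  clear h2
  simp only [List.mem_cons, List.not_mem_nil, or_false, not_or, not_false_eq_true] at hex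
  simp only [cand, cnt_cons, vec, Nat.reduceEqDiff, ↓reduceIte, add_zero, zero_add] at h1
  unfold nimv at h3
  rcases h1 with ⟨p1, p2, p3, p4, p5⟩ | ⟨p1, h1⟩
  · clear p1; omega
  · rcases h1 with h1|h1|h1|h1|h1|h1|h1|h1 <;> omega

theorem s1_q_imm (k : ℕ) (n : ℕ) (hn : n < 16) (hex : n ∉ ([0, 1, 8] : List ℕ)) (R : Multiset Gen) (h1 : cand k (q ::ₘ R))
    (h2 : cand k (imm n + R)) : False := by
  have h3 := imm_val k n (by omega) R h2
  clear h2
  simp only [List.mem_cons, List.not_mem_nil, or_false, not_or, not_false_eq_true] at hex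
  simp only [cand, cnt_cons, vec, Nat.reduceEqDiff, ↓reduceIte, add_zero, zero_add] at h1
  unfold nimv at h3
  rcases h1 with ⟨p1, p2, p3, p4, p5⟩ | ⟨p1, h1⟩
  · clear p1; omega
  · rcases h1 with h1|h1|h1|h1|h1|h1|h1|h1 <;> omega

theorem s1_z_imm (k : ℕ) (n : ℕ) (hn : n < 16) (hex : n ∉ ([0, 1, 4, 8] : List ℕ)) (R : Multiset Gen) (h1 : cand k (z ::ₘ R))
    (h2 : cand k (imm n + R)) : False := by
  have h3 := imm_val k n (by omega) R h2
  clear h2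
  simp only [List.mem_cons, List.not_mem_nil, or_false, not_or, not_false_eq_true] at hex
  simp only [cand, cnt_cons, vec, Nat.reduceEqDiff, ↓reduceIte, add_zero, zero_add] at h1
  unfold nimv at h3
  rcases h1 with ⟨p1, p2, p3, p4, p5⟩ | ⟨p1, h1⟩
  · clear p1; omega
  · rcases h1 with h1|h1|h1|h1|h1|h1|h1|h1 <;> omega

theorem s1_x_imm (k : ℕ) (n : ℕ) (hn : n < 4) (hex : n ∉ ([0, 1] : List ℕ)) (R : Multiset Gen) (h1 : cand k (x ::ₘ R))
    (h2 : cand k (imm n + R)) : False := by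
  have h3 := imm_val k n (by omega) R h2
  clear h2
  simp only [List.mem_cons, List.not_mem_nil, or_false, not_or, not_false_eq_true] at hex
  simp only [cand, cnt_cons, vec, Nat.reduceEqDiff, ↓reduceIte, add_zero, zero_add] at h1
  unfold nimv at h3
  rcases h1 with ⟨p1, p2, p3, p4, p5⟩ | ⟨p1, h1⟩
  · clear p1; omega
  · rcases h1 with h1|h1|h1|h1|h1|h1|h1|h1 <;> omega

theorem s1_c_imm (k : ℕ) (i : ℕ) (n : ℕ) (hn : n < 16) (hex : n ∉ ([0, 1, 6] : List ℕ)) (R : Multiset Gen) (h1 : cand k (c i ::ₘ R))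
    (h2 : cand k (imm n + R)) : False := by
  have h3 := imm_val k n (by omega) R h2
  clear h2
  simp only [List.mem_cons, List.not_mem_nil, or_false, not_or, not_false_eq_true] at hex
  simp only [cand, cnt_cons, vec, Nat.reduceEqDiff, ↓reduceIte, add_zero, zero_add] at h1
  unfold nimv at h3
  rcases h1 with ⟨p1, p2, p3, p4, p5⟩ | ⟨p1, h1⟩
  · clear p1; omega
  · rcases h1 with h1|h1|h1|h1|h1|h1|h1|h1 <;> omega

theorem s1 (k : ℕ) (g : Gen) (o : Multiset Gen) (ho : o ∈ opts k g) (R : Multiset Gen)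
    (h1 : cand k (g ::ₘ R)) (h2 : cand k (o + R)) : False := by
  cases g with
  | a =>
    simp only [opts, List.mem_cons, List.not_mem_nil, or_false] at ho
    subst ho
    exact s1_a_0 k R h1 h2
  | b =>
    simp only [opts, List.mem_cons, List.not_mem_nil, or_false] at ho
    rcases ho with rfl | rfl
    · exact s1_b_0 k R h1 h2
    · exact s1_b_1 k R h1 h2
  | d =>
    simp only [opts, mem_immL] at ho
    obtain ⟨n, hn, hex, rfl⟩ := ho
    exact s1_d_imm k n hn hex R h1 h2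
  | e =>
    simp only [opts, mem_immL] at ho
    obtain ⟨n, hn, hex, rfl⟩ := ho
    exact s1_e_imm k n hn hex R h1 h2
  | W =>
    simp only [opts, List.mem_cons, mem_immL] at ho
    rcases ho with rfl | ⟨n, hn, hex, rfl⟩
    · exact s1_W_0 k R h1 h2
    · exact s1_W_imm k n hn (by simpa using hex) R h1 h2
  | B =>
    simp only [opts, List.mem_cons, mem_immL] at ho
    rcases ho with rfl | rfl | ⟨n, hn, hex, rfl⟩
    · exact s1_B_0 k R h1 h2
    · exact s1_B_1 k R h1 h2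
    · exact s1_B_imm k n hn (by simpa using hex) R h1 h2
  | s =>
    simp only [opts, List.mem_cons, mem_immL] at ho
    rcases ho with rfl | ⟨n, hn, hex, rfl⟩
    · exact s1_s_0 k R h1 h2
    · exact s1_s_imm k n hn (by simpa using hex) R h1 h2
  | q =>
    simp only [opts, List.mem_cons, mem_immL] at ho
    rcases ho with rfl | rfl | rfl | ⟨n, hn, hex, rfl⟩
    · exact s1_q_0 k R h1 h2
    · exact s1_q_1 k R h1 h2
    · exact s1_q_2 k R h1 h2
    · exact s1_q_imm k n hn (by simpa using hex) R h1 h2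
  | z =>
    simp only [opts, List.mem_cons, mem_immL] at ho
    rcases ho with rfl | rfl | rfl | rfl | rfl | ⟨n, hn, hex, rfl⟩
    · exact s1_z_0 k R h1 h2
    · exact s1_z_1 k R h1 h2
    · exact s1_z_2 k R h1 h2
    · exact s1_z_3 k R h1 h2
    · exact s1_z_4 k R h1 h2
    · exact s1_z_imm k n hn (by simpa using hex) R h1 h2
  | x =>
    simp only [opts, List.mem_cons, mem_immL] at ho
    rcases ho with rfl | rfl | ⟨n, hn, hex, rfl⟩
    · exact s1_x_0 k R h1 h2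
    · exact s1_x_1 k R h1 h2
    · exact s1_x_imm k n hn (by simpa using hex) R h1 h2
  | c i =>
    simp only [opts, List.mem_cons, mem_immL] at ho
    rcases ho with rfl | rfl | rfl | ⟨n, hn, hex, rfl⟩
    · exact s1_c_0 k i R h1 h2
    · exact s1_c_1 k i R h1 h2
    · cases i with
      | zero => exact s1_c_2a k R h1 h2
      | succ i => exact s1_c_2b k i R h1 h2
    · exact s1_c_imm k i n hn (by simpa using hex) R h1 h2

end Pool.Agent.H393Z.Mis
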