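import Mathlib

set_option autoImplicit false

namespace Pool.Agent.H393Z.Mis

inductive Gen : Type
  | a : Gen
  | b : Gen
  | d : Gen
  | e : Gen
  | W : Gen
  | B : Gen
  | s : Gen
  | q : Gen
  | z : Gen
  | x : Gen
  | c : ℕ → Gen

open Gen

def vec : Gen → ℕ → ℕ
  | .a, j => if j = 0 then 1 else 0
  | .b, j => if j = 1 then 1 else 0
  | .d, j => if j = 2 then 1 else 0
  | .e, j => if j = 3 then 1 else 0
  | .W, j => if j = 4 then 1 else 0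
  | .B, j => if j = 5 then 1 else 0
  | .s, j => if j = 6 then 1 else 0
  | .q, j => if j = 7 then 1 else 0
  | .z, j => if j = 8 then 1 else 0
  | .x, j => if j = 9 then 1 else 0
  | .c i, j => if j = 10 then 1 else if j = 11 then i else 0

def cnt (j : ℕ) (P : Multiset Gen) : ℕ := (P.map (fun g => vec g j)).sum

theorem cnt_zero (j : ℕ) : cnt j 0 = 0 := by simp [cnt]

theorem cnt_cons (j : ℕ) (g : Gen) (P : Multiset Gen) : cnt j (g ::ₘ P) = vec g j + cnt j P := by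
  simp [cnt]

theorem cnt_add (j : ℕ) (P Q : Multiset Gen) : cnt j (P + Q) = cnt j P + cnt j Q := by
  simp [cnt]

theorem cnt_replicate (j n : ℕ) (g : Gen) :
    cnt j (Multiset.replicate n g) = n * vec g j := by
  simp [cnt]

theorem exists_of_cnt {j : ℕ} {P : Multiset Gen} (h : 1 ≤ cnt j P) :
    ∃ g R, P = g ::ₘ R ∧ 1 ≤ vec g j := by
  induction P using Multiset.induction_on with
  | empty => simp [cnt] at h
  | cons g R ih =>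
    rw [cnt_cons] at h
    by_cases hg : 1 ≤ vec g j
    · exact ⟨g, R, rfl, hg⟩
    · obtain ⟨g', R', rfl, h'⟩ := ih (by omega)
      exact ⟨g', g ::ₘ R', Multiset.cons_swap _ _ _, h'⟩

theorem sc_zero (P : Multiset Gen) : cnt 10 P = 0 → cnt 11 P = 0 := by
  induction P using Multiset.induction_on with
  | empty => simp [cnt]
  | cons g R ih =>
    rw [cnt_cons, cnt_cons]
    cases g <;> simp [vec] <;> exact ih

def imm (n : ℕ) : Multiset Gen :=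
  Multiset.replicate (n % 2) a + Multiset.replicate (2 + n / 2 % 2) b +
    Multiset.replicate (n / 4 % 2) d + Multiset.replicate (n / 8 % 2) e

theorem cnt_imm (j n : ℕ) : cnt j (imm n) =
    n % 2 * vec a j + (2 + n / 2 % 2) * vec b j + n / 4 % 2 * vec d j + n / 8 % 2 * vec e j := by
  simp only [imm, cnt_add, cnt_replicate]

def immL (M : ℕ) (ex : List ℕ) : List (Multiset Gen) :=
  ((List.range M).filter (fun n => n ∉ ex)).map imm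

theorem mem_immL {M : ℕ} {ex : List ℕ} {o : Multiset Gen} :
    o ∈ immL M ex ↔ ∃ n, n < M ∧ n ∉ ex ∧ o = imm n := by
  simp only [immL, List.mem_map, List.mem_filter, List.mem_range, decide_eq_true_eq]
  constructor
  · rintro ⟨n, ⟨h1, h2⟩, rfl⟩
    exact ⟨n, h1, h2, rfl⟩
  · rintro ⟨n, h1, h2, rfl⟩
    exact ⟨n, ⟨h1, h2⟩, rfl⟩

def prev : ℕ → Gen
  | 0 => q
  | i + 1 => c i

def opts (k : ℕ) : Gen → List (Multiset Gen)
  | .a => [0]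
  | .b => [0, a ::ₘ 0]
  | .d => immL 4 []
  | .e => immL 8 []
  | .W => (a ::ₘ 0) :: immL 16 [0]
  | .B => 0 :: (a ::ₘ 0) :: immL 16 [0, 1, 4, 8]
  | .s => (a ::ₘ W ::ₘ 0) :: immL 16 [1, 8]
  | .q => (W ::ₘ 0) :: (a ::ₘ W ::ₘ 0) :: (B ::ₘ 0) :: immL 16 [0, 1, 8]
  | .z => (W ::ₘ 0) :: (a ::ₘ W ::ₘ 0) :: (B ::ₘ 0) :: (a ::ₘ s ::ₘ 0) ::
      (a ::ₘ c (2 * k) ::ₘ 0) :: immL 16 [0, 1, 4, 8]
  | .x => 0 :: (z ::ₘ 0) :: immL 4 [0, 1]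
  | .c i => (W ::ₘ 0) :: (a ::ₘ W ::ₘ 0) :: (a ::ₘ prev i ::ₘ 0) :: immL 16 [0, 1, 6]

/-- The phase of the counter after `l` copies of `x`. -/
def ph (k l : ℕ) : ℕ := (l + (2 * k + 2)) % (2 * k + 4)

def U (p φ na nW nB ns nq nz nx nc sc : ℕ) : Prop :=
  (nW + nB + ns + nq + nz + nc = 0 ∧ (na + nx) % 2 = 1 ∧ φ ≠ 0) ∨
  (nW = 1 ∧ nB + ns + nq + nz + nc = 0 ∧ (na + nx) % 2 = 0 ∧ φ = 0) ∨
  (ns = 1 ∧ nW + nB + nq + nz + nc = 0 ∧ (na + nx) % 2 = 1 ∧ nx = 0) ∨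
  (nq = 1 ∧ nW + nB + ns + nz + nc = 0 ∧
    (((na + nx) % 2 = 0 ∧ (nx < 2 ∨ 2 < φ)) ∨ ((na + nx) % 2 = 1 ∧ 2 ≤ nx ∧ φ = 1))) ∨
  (nc = 1 ∧ nW + nB + ns + nq + nz = 0 ∧
    (((na + nx) % 2 = 0 ∧ (nx < 2 ∨ sc + 3 < φ)) ∨
      ((na + nx) % 2 = 1 ∧ 2 ≤ nx ∧ 1 ≤ φ ∧ φ ≤ sc + 2))) ∨
  (nz = 1 ∧ nW + nB + ns + nq + nc = 0 ∧
    (((na + nx) % 2 = 0 ∧ φ + 1 = p) ∨ ((na + nx) % 2 = 1 ∧ φ = 1))) ∨
  (nW + ns + nq + nc = 0 ∧ nB % 2 = 1 ∧ (nz = 0 ∨ nz % 2 = 1) ∧ (na + nx) % 2 = 0 ∧ φ = 0) ∨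
  ((na + nx) % 2 = 0 ∧ nc % 2 = 0 ∧ nB % 2 = 0 ∧ (ns + nq + nz) % 2 = 0 ∧
    2 ≤ nW + nB + ns + nq + nz + nc ∧ (φ ≠ 0 ∨ 1 ≤ nW + ns + nc ∨ 2 ≤ nq))

def G (p φ na nb nd ne nW nB ns nq nz nx nc sc : ℕ) : Prop :=
  (1 ≤ nb + nd + ne ∧ (na + nx) % 2 = 0 ∧ (nb + nc) % 2 = 0 ∧ (nd + nB + nc) % 2 = 0 ∧
    (ne + ns + nq + nz) % 2 = 0) ∨
  (nb + nd + ne = 0 ∧ U p φ na nW nB ns nq nz nx nc sc)

def cand (k : ℕ) (P : Multiset Gen) : Prop :=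
  G (2 * k + 4) (ph k (cnt 9 P)) (cnt 0 P) (cnt 1 P) (cnt 2 P) (cnt 3 P) (cnt 4 P) (cnt 5 P)
    (cnt 6 P) (cnt 7 P) (cnt 8 P) (cnt 9 P) (cnt 10 P) (cnt 11 P)

theorem ph_lt (k l : ℕ) : ph k l < 2 * k + 4 := Nat.mod_lt _ (by omega)

theorem ph_par (k l : ℕ) : ph k l % 2 = l % 2 := by
  have h : (2 : ℕ) ∣ 2 * k + 4 := ⟨k + 2, by ring⟩
  unfold ph
  rw [Nat.mod_mod_of_dvd _ h]
  omega

theorem ph_zero (k : ℕ) : ph k 0 = 2 * k + 2 := by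
  unfold ph
  rw [Nat.mod_eq_of_lt] <;> omega

theorem ph_step (k l : ℕ) :
    (ph k (l + 1) = ph k l + 1) ∨ (ph k (l + 1) = 0 ∧ ph k l = 2 * k + 3) := by
  have h1 := ph_lt k l
  have h2 : ph k (l + 1) = (ph k l + 1) % (2 * k + 4) := by
    unfold ph
    rw [Nat.mod_add_mod]
    congr 1
    ring
  by_cases h : ph k l + 1 < 2 * k + 4
  · left
    rw [h2, Nat.mod_eq_of_lt h]
  · right
    have h3 : ph k l + 1 = 2 * k + 4 := by omega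
    rw [h2, h3, Nat.mod_self]
    omega

theorem ph_facts (k l : ℕ) : ph k l < 2 * k + 4 ∧ ph k l % 2 = l % 2 ∧
    (l = 0 → ph k l = 2 * k + 2) ∧ (l = 1 → ph k l = 2 * k + 3) ∧ (l = 2 → ph k l = 0) := by
  have h0 := ph_zero k
  have h1 := ph_step k 0
  have h2 := ph_step k 1
  have h3 := ph_lt k 2
  refine ⟨ph_lt k l, ph_par k l, ?_, ?_, ?_⟩ <;> rintro rfl <;> simp only [zero_add, Nat.reduceAdd] at * <;> omega

theorem ph_period (k l : ℕ) : ph k (l + (2 * k + 4)) = ph k l := by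
  unfold ph
  rw [show l + (2 * k + 4) + (2 * k + 2) = l + (2 * k + 2) + (2 * k + 4) by ring, Nat.add_mod_right]

end Pool.Agent.H393Z.Mis
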